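import Pool.Agent.Helper70.FFB5

set_option autoImplicit false

namespace Pool.Agent.Helper70

open Pool.Agent.Helper7
open Polynomial
open scoped IntermediateField.algebraAdjoinAdjoin

variable {k K : Type*} [Field k] [Field K] [Algebra k K]

theorem exists_poles_eq_aux [Finite k] (t : K) (ht : Transcendental k t)
    (hfin : FiniteDimensional (IntermediateField.adjoin k {t}) K)
    (S : Finset (ValuationSubring K)) (htop : ⊤ ∉ S) :
    ∃ f : K, poles f = S := by
  classical
  have h1 : ∀ v : ValuationSubring K, ∃ f : K, v ∈ S → poles f = {v} := by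
    intro v
    by_cases hv : v ∈ S
    · obtain ⟨f, hf⟩ := exists_single_pole t ht hfin v (fun h => htop (h ▸ hv))
      exact ⟨f, fun _ => hf⟩
    · exact ⟨0, fun h => absurd h hv⟩
  choose f hf using h1
  have hmem : ∀ v ∈ S, ∀ w : ValuationSubring K, f v ∉ w ↔ w = v := by
    intro v hv w
    have := Set.ext_iff.1 (hf v hv) w
    rwa [Set.mem_singleton_iff] at this
  refine ⟨∑ v ∈ S, f v, ?_⟩
  ext w
  rw [Finset.mem_coe]
  constructor
  · intro hw
    by_contra hwS
    apply hw
    refine sum_mem (fun v hv => ?_)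
    by_contra h
    exact hwS (((hmem v hv w).1 h) ▸ hv)
  · intro hw h
    rw [← Finset.add_sum_erase S f hw] at h
    have h2 : ∑ v ∈ S.erase w, f v ∈ w := by
      refine sum_mem (fun v hv => ?_)
      rw [Finset.mem_erase] at hv
      by_contra h3
      exact hv.1 ((hmem v hv.2 w).1 h3).symm
    have h3 := sub_mem h h2
    rw [add_sub_cancel_right] at h3
    exact (hmem w hw w).2 rfl h3

/-- A function `f` regular at `w` satisfies `f ^ N - f ∈ 𝔪_w` for `N` the size of the residue
field. -/
theorem exists_pow_sub_mem (w : ValuationSubring K) [Finite (IsLocalRing.ResidueField w)]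
    (f : K) (hf : f ∈ w) : ∃ n : ℕ, 1 < n ∧ w.valuation (f ^ n - f) < 1 := by
  classical
  have := Fintype.ofFinite (IsLocalRing.ResidueField w)
  refine ⟨Fintype.card (IsLocalRing.ResidueField w), Fintype.one_lt_card, ?_⟩
  have h1 : (⟨f, hf⟩ : w) ^ Fintype.card (IsLocalRing.ResidueField w) - ⟨f, hf⟩ ∈
      IsLocalRing.maximalIdeal w := by
    rw [← IsLocalRing.residue_eq_zero_iff, map_sub, map_pow, FiniteField.pow_card, sub_self]
  rw [ValuationSubring.valuation_lt_one_iff] at h1
  exact h1

/-- An element `b ≠ 0` regular outside `S = poles f` with `z * b ^ p` regular outside `S`. -/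
theorem exists_denominator [Finite k] (t : K) (ht : Transcendental k t)
    (hfin : FiniteDimensional (IntermediateField.adjoin k {t}) K)
    (f : K) (hf : Transcendental k f) (z : K) (hz : Transcendental k z) (p : ℕ) (hp : p ≠ 0) :
    ∃ b : K, b ≠ 0 ∧ ∀ w, w ∉ poles f → z * b ^ p ∈ w := by
  classical
  have hfin' := finite_of_transcendental t ht hfin z hz
  have hT := (poles_finite z hz hfin').1
  -- for each pole of z outside `S` a function
  have h1 : ∀ w : ValuationSubring K, ∃ c : K, c ≠ 0 ∧
      (∀ w', w' ∉ poles f → c ∈ w') ∧ (w ∈ poles z → w ∉ poles f → z * c ∈ w) := by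
    intro w
    by_cases hw : w ∈ poles z ∧ w ∉ poles f
    · have hne := ne_top_of_pole hw.1
      obtain ⟨hd, hr⟩ := isDVR_of_ne_top t ht hfin w hne
      have hfw : f ∈ w := by
        by_contra h
        exact hw.2 h
      obtain ⟨n, hn1, hn⟩ := exists_pow_sub_mem w f hfw
      obtain ⟨N, hN⟩ := exists_pow_mem_of_isDVR w (f ^ n - f) hn z
      refine ⟨(f ^ n - f) ^ N, ?_, ?_, fun _ _ => hN⟩
      · apply pow_ne_zero
        intro h0
        apply hf
        refine ⟨X ^ n - X, ?_, by simpa using h0⟩
        intro h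
        have := congrArg (fun q : k[X] => q.coeff n) h
        simp [coeff_X, (show (1 : ℕ) ≠ n by omega)] at this
      · intro w' hw'
        have : f ∈ w' := by
          by_contra h
          exact hw' h
        exact pow_mem (sub_mem (pow_mem this _) this) _
    · refine ⟨1, one_ne_zero, fun w' _ => w'.one_mem, fun h h' => absurd ⟨h, h'⟩ hw⟩
  choose c hc0 hc hcz using h1
  refine ⟨∏ w ∈ hT.toFinset, c w, Finset.prod_ne_zero_iff.2 (fun w _ => hc0 w), ?_⟩
  intro w hw
  have hb : ∏ w ∈ hT.toFinset, c w ∈ w := prod_mem (fun w' _ => hc w' w hw)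
  by_cases hwz : w ∈ poles z
  · have h2 : z * ∏ w ∈ hT.toFinset, c w ∈ w := by
      rw [← Finset.mul_prod_erase _ _ ((Set.Finite.mem_toFinset hT).2 hwz), ← mul_assoc]
      exact mul_mem (hcz w hwz hw) (prod_mem (fun w' _ => hc w' w hw))
    obtain ⟨q, rfl⟩ := Nat.exists_eq_succ_of_ne_zero hp
    rw [pow_succ', ← mul_assoc]
    exact mul_mem h2 (pow_mem hb _)
  · have hzw : z ∈ w := by
      by_contra h
      exact hwz h
    exact mul_mem hzw (pow_mem hb _)

end Pool.Agent.Helper70

namespace Pool.Agent.Helper7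

open Pool.Agent.Helper70

variable {k K : Type*} [Field k] [Finite k] [Field K] [Algebra k K]

/-- B5. A separating element with prescribed pole set. -/
theorem exists_poles_eq (t : K) (ht : Transcendental k t)
    (hfin : FiniteDimensional (IntermediateField.adjoin k {t}) K)
    (S : Set (ValuationSubring K)) (hS : S.Finite) (hS' : S.Nonempty) (htop : ⊤ ∉ S) :
    ∃ t' : K, Transcendental k t' ∧ FiniteDimensional (IntermediateField.adjoin k {t'}) K ∧
      Algebra.IsSeparable (IntermediateField.adjoin k {t'}) K ∧ poles t' = S := by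
  classical
  obtain ⟨f, hf⟩ := exists_poles_eq_aux t ht hfin hS.toFinset (by
    rw [Set.Finite.mem_toFinset]
    exact htop)
  rw [Set.Finite.coe_toFinset] at hf
  obtain ⟨v₀, hv₀⟩ := hS'
  have hft : Transcendental k f := transcendental_of_pole (v := v₀) (by rw [hf]; exact hv₀)
  obtain ⟨x, hx, hfx, hsx⟩ := exists_separating t ht hfin
  obtain ⟨p, hp⟩ := CharP.exists K
  have hp0 : p ≠ 0 := by
    rintro rfl
    have : CharP k 0 := RingHom.charP (algebraMap k K) (algebraMap k K).injective 0
    have : CharZero k := CharP.charP_to_charZero k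
    exact (inferInstance : Infinite k).not_finite inferInstance
  obtain ⟨b, hb0, hb⟩ := exists_denominator t ht hfin f hft x hx p hp0
  -- large power of f
  have h1 : ∀ v ∈ poles f, ∀ᶠ N : ℕ in Filter.atTop, (x * b ^ p) * f⁻¹ ^ N ∈ v.nonunits := by
    intro v hv
    have := (isDVR_of_ne_top t ht hfin v (ne_top_of_pole hv)).1
    have hlt := val_lt_one_of_mem_poles hv
    obtain ⟨N, hN⟩ := exists_pow_mem_of_isDVR v f⁻¹ hlt (x * b ^ p)
    rw [Filter.eventually_atTop]
    refine ⟨N + 1, fun M hM => ?_⟩
    have h2 : x * b ^ p * f⁻¹ ^ M = (x * b ^ p * f⁻¹ ^ N) * f⁻¹ ^ (M - N) := by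
      rw [mul_assoc _ (f⁻¹ ^ N), ← pow_add, Nat.add_sub_cancel' (by omega)]
    rw [h2, ValuationSubring.mem_nonunits_iff, map_mul]
    refine mul_lt_one_of_nonneg_of_lt_one_right
      ((ValuationSubring.valuation_le_one_iff _ _).2 hN) zero_le ?_
    rw [map_pow]
    exact pow_lt_one₀ zero_le hlt (by omega)
  have hfinf : (poles f).Finite := by
    rw [hf]
    exact hS
  obtain ⟨N, hN⟩ := (((hfinf.eventually_all (l := Filter.atTop)
    (p := fun v N => (x * b ^ p) * f⁻¹ ^ N ∈ v.nonunits)).2 h1)).exists_forall_of_atTop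
  obtain ⟨M, hM⟩ : ∃ M : ℕ, M = N + 1 := ⟨_, rfl⟩
  have hMN : N ≤ p * M := by
    calc N ≤ M := by omega
      _ ≤ p * M := Nat.le_mul_of_pos_left M (Nat.pos_of_ne_zero hp0)
  have hM0 : p * M ≠ 0 := mul_ne_zero hp0 (by omega)
  have hpoles : poles (f ^ (p * M) + x * b ^ p) = S := by
    rw [← hf]
    ext w
    constructor
    · intro hw
      by_contra hwf
      have hfw : f ∈ w := by
        by_contra h
        exact hwf h
      exact hw (add_mem (pow_mem hfw _) (hb w hwf))
    · intro hw hmem
      have hf0 : f ≠ 0 := ne_zero_of_mem_poles hw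
      have h2 := hN (p * M) hMN w hw
      rw [ValuationSubring.mem_nonunits_iff] at h2
      have h3 : f ^ (p * M) + x * b ^ p = f ^ (p * M) * (1 + x * b ^ p * f⁻¹ ^ (p * M)) := by
        rw [mul_add, mul_one, mul_comm (x * b ^ p) (f⁻¹ ^ (p * M)), ← mul_assoc, ← mul_pow,
          mul_inv_cancel₀ hf0, one_pow, one_mul]
      rw [← ValuationSubring.valuation_le_one_iff, h3, map_mul,
        Valuation.map_add_eq_of_lt_left _ (by rwa [map_one]), map_one, mul_one, map_pow] at hmem
      exact absurd hmem (not_le.2 (one_lt_pow₀ (one_lt_val_of_mem_poles hw) hM0))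
  have htr : Transcendental k (f ^ (p * M) + x * b ^ p) :=
    transcendental_of_pole (v := v₀) (by rw [hpoles]; exact hv₀)
  have hfin' := finite_of_transcendental t ht hfin _ htr
  refine ⟨f ^ (p * M) + x * b ^ p, htr, hfin', ?_, hpoles⟩
  apply isSeparable_of_der_imp x (f ^ (p * M) + x * b ^ p)
  intro D hD
  have h4 : D (f ^ (p * M)) = 0 := by
    rw [mul_comm p M, pow_mul]
    exact der_pow_char p D _
  rw [map_add, h4, zero_add, D.leibniz, der_pow_char p D b, smul_zero, zero_add, smul_eq_mul] at hD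
  exact (mul_eq_zero.1 hD).resolve_left (pow_ne_zero _ hb0)

end Pool.Agent.Helper7
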