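import Pool.Agent.Helper70.FFSep

set_option autoImplicit false

namespace Pool.Agent.Helper70

open Pool.Agent.Helper7
open Polynomial
open scoped IntermediateField.algebraAdjoinAdjoin

variable {k K : Type*} [Field k] [Field K] [Algebra k K]

theorem adjoin_inv (x : K) :
    IntermediateField.adjoin k {x⁻¹} = IntermediateField.adjoin k {x} := by
  apply le_antisymm
  · rw [IntermediateField.adjoin_simple_le_iff]
    exact inv_mem (IntermediateField.mem_adjoin_simple_self k x)
  · rw [IntermediateField.adjoin_simple_le_iff]
    have := inv_mem (IntermediateField.mem_adjoin_simple_self k x⁻¹)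
    rwa [inv_inv] at this

theorem transcendental_inv {x : K} (hx : Transcendental k x) : Transcendental k x⁻¹ := by
  intro h
  apply hx
  have := h.inv
  rwa [inv_inv] at this

theorem affRing_le {t : K} {v : ValuationSubring K} (h : t ∈ v) :
    affRing (poles t) ≤ v.toSubring := by
  intro z hz
  rw [mem_affRing_iff] at hz
  exact hz v (by simpa [poles] using h)

theorem isDVR_aux [Finite k] (x : K) (hx : Transcendental k x)
    [FiniteDimensional (IntermediateField.adjoin k {x}) K]
    [Algebra.IsSeparable (IntermediateField.adjoin k {x}) K]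
    (v : ValuationSubring K) (hv : v ≠ ⊤) (hxv : x ∈ v) :
    IsDiscreteValuationRing v ∧ Finite (IsLocalRing.ResidueField v) := by
  obtain ⟨h1, h2, h3⟩ := dedekind_affRing (k := k) x hx
  refine ⟨isDVR_of_dedekind _ v (affRing_le hxv) hv, ?_⟩
  have h4 := card_quot_center _ v (affRing_le hxv) hv
  have h5 : Finite (affRing (poles x) ⧸ center _ v (affRing_le hxv)) :=
    h3.finiteQuotient (center_ne_bot _ v (affRing_le hxv) hv)
  apply Nat.finite_of_card_ne_zero
  rw [← h4]
  exact Nat.card_pos.ne'

end Pool.Agent.Helper70

namespace Pool.Agent.Helper7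

open Pool.Agent.Helper70

variable {k K : Type*} [Field k] [Finite k] [Field K] [Algebra k K]

/-- B1. Every closed point of a function field over a finite field is discrete with finite residue
field. -/
theorem isDVR_of_ne_top (t : K) (ht : Transcendental k t)
    (hfin : FiniteDimensional (IntermediateField.adjoin k {t}) K)
    (v : ValuationSubring K) (hv : v ≠ ⊤) :
    IsDiscreteValuationRing v ∧ Finite (IsLocalRing.ResidueField v) := by
  obtain ⟨x, hx, hfin, hsep⟩ := exists_separating t ht hfin
  rcases v.mem_or_inv_mem x with h | h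
  · exact isDVR_aux x hx v hv h
  · rw [← adjoin_inv x] at hfin hsep
    exact isDVR_aux x⁻¹ (transcendental_inv hx) v hv h

end Pool.Agent.Helper7

namespace Pool.Agent.Helper70

open Pool.Agent.Helper7

variable {k K : Type*} [Field k] [Field K] [Algebra k K]

theorem mem_iff_center {A : Subring K} [IsDedekindDomain A] [IsFractionRing A K]
    (v : ValuationSubring K) (h : A ≤ v.toSubring) (hv : v ≠ ⊤) (z : K) :
    z ∈ v ↔ ∃ a b : A, b ∉ center A v h ∧ z = a / b := by
  rw [← mem_ofP (hP := center_ne_bot A v h hv), ofP_center v h hv]

theorem center_injective {A : Subring K} [IsDedekindDomain A] [IsFractionRing A K]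
    {v w : ValuationSubring K} (h : A ≤ v.toSubring) (hv : v ≠ ⊤) (h' : A ≤ w.toSubring)
    (hw : w ≠ ⊤) (heq : center A v h = center A w h') : v = w := by
  ext z
  rw [mem_iff_center v h hv, mem_iff_center w h' hw, heq]

theorem poles_finite_aux [Finite k] (x : K) (hx : Transcendental k x)
    [FiniteDimensional (IntermediateField.adjoin k {x}) K]
    [Algebra.IsSeparable (IntermediateField.adjoin k {x}) K] (t : K) :
    {v : ValuationSubring K | x ∈ v ∧ t ∉ v}.Finite := by
  classical
  obtain ⟨h1, h2, h3⟩ := dedekind_affRing (k := k) x hx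
  obtain ⟨a, b, hb, hab⟩ := IsFractionRing.div_surjective (A := affRing (poles x)) t
  have hb0 : b ≠ 0 := nonZeroDivisors.ne_zero hb
  have hfin := Ring.HasFiniteQuotients.finite_setOfPred_mem b hb0
  have hne : ∀ v : ValuationSubring K, t ∉ v → v ≠ ⊤ := by
    rintro v hv rfl
    exact hv (ValuationSubring.mem_top t)
  refine Set.Finite.of_injOn (t := {I : Ideal (affRing (poles x)) | b ∈ I})
    (f := fun v => if h : affRing (poles x) ≤ v.toSubring then
      center (affRing (poles x)) v h else ⊥) ?_ ?_ hfin
  · rintro v ⟨hxv, htv⟩
    have hle := affRing_le hxv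
    simp only [Set.mem_ofPred_eq, dif_pos hle]
    by_contra hb1
    apply htv
    rw [mem_iff_center v hle (hne v htv)]
    exact ⟨a, b, hb1, hab.symm⟩
  · rintro v ⟨hxv, htv⟩ w ⟨hxw, htw⟩ heq
    have hle := affRing_le hxv
    have hle' := affRing_le hxw
    simp only [dif_pos hle, dif_pos hle'] at heq
    exact center_injective hle (hne v htv) hle' (hne w htw) heq

end Pool.Agent.Helper70

namespace Pool.Agent.Helper7

open Pool.Agent.Helper70

variable {k K : Type*} [Field k] [Finite k] [Field K] [Algebra k K]

/-- B2. The set of poles is finite and nonempty. -/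
theorem poles_finite (t : K) (ht : Transcendental k t)
    (hfin : FiniteDimensional (IntermediateField.adjoin k {t}) K) :
    (poles t).Finite ∧ (poles t).Nonempty := by
  constructor
  · obtain ⟨x, hx, hfin, hsep⟩ := exists_separating t ht hfin
    have h1 := poles_finite_aux (k := k) x hx t
    rw [← adjoin_inv x] at hfin hsep
    have h2 := poles_finite_aux (k := k) x⁻¹ (transcendental_inv hx) t
    refine (h1.union h2).subset ?_
    intro v hv
    rcases v.mem_or_inv_mem x with h | h
    · exact Or.inl ⟨h, hv⟩
    · exact Or.inr ⟨h, hv⟩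
  · by_contra hne
    rw [Set.not_nonempty_iff_eq_empty] at hne
    apply ht
    have h1 : t ∈ affRing (poles (0 : K)) := by
      rw [mem_affRing_iff]
      intro v _
      by_contra hv
      have : v ∈ poles t := hv
      rw [hne] at this
      exact this
    rw [mem_affRing_poles (k := k)] at h1
    have h2 : Algebra.IsIntegral k (Algebra.adjoin k {(0 : K)}) :=
      Algebra.IsIntegral.adjoin (by
        intro x hx
        rw [Set.mem_singleton_iff] at hx
        rw [hx]
        exact isIntegral_zero)
    have h3 : IsIntegral k t := isIntegral_trans t h1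
    exact h3.isAlgebraic

end Pool.Agent.Helper7
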