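import Pool.Agent.Helper70.FFTrace

set_option autoImplicit false

namespace Pool.Agent.Helper70

open Pool.Agent.Helper7
open Polynomial
open scoped IntermediateField.algebraAdjoinAdjoin

variable {k K : Type*} [Field k] [Field K] [Algebra k K]

theorem finite_natDegree_le (k : Type*) [Field k] [Finite k] (n : ℕ) :
    {P : k[X] | P.natDegree ≤ n}.Finite := by
  have h1 : Finite (degreeLT k (n + 1)) := Finite.of_equiv _ (degreeLTEquiv k (n + 1)).symm.toEquiv
  refine (Set.toFinite (degreeLT k (n + 1) : Set k[X])).subset ?_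
  intro P hP
  rw [SetLike.mem_coe, mem_degreeLT]
  rcases eq_or_ne P 0 with rfl | h0
  · rw [degree_zero]
    exact WithBot.bot_lt_coe _
  · rw [degree_eq_natDegree h0]
    have : P.natDegree ≤ n := hP
    exact_mod_cast Nat.lt_succ_of_le this

theorem degree_le_of_mem [Finite k] {t : K} {v : ValuationSubring K} (hv : v ∈ poles t) (P : k[X])
    (N : ℕ) (h : aeval t P * t⁻¹ ^ N ∈ v) : P.natDegree ≤ N := by
  rcases eq_or_ne P 0 with rfl | h0
  · simp
  by_contra hlt
  push Not at hlt
  rw [← ValuationSubring.valuation_le_one_iff, map_mul, val_aeval hv P h0] at h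
  have h1 := one_lt_val_of_mem_poles hv
  have ht : t ≠ 0 := ne_zero_of_mem_poles hv
  have ht' : v.valuation t ≠ 0 := (Valuation.ne_zero_iff _).2 ht
  rw [map_pow, map_inv₀, inv_pow, ← pow_sub₀ _ ht' hlt.le] at h
  have h2 : 1 < v.valuation t ^ (P.natDegree - N) := one_lt_pow₀ h1 (by omega)
  exact absurd h (not_le.2 h2)

/-- Every element of `k(t)` is a polynomial plus an element regular at the poles of `t`. -/
theorem exists_poly_add [Finite k] (t : K) (ht : Transcendental k t)
    (f : IntermediateField.adjoin k {t}) :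
    ∃ P : k[X], algebraMap (IntermediateField.adjoin k {t}) K f - aeval t P ∈
      infRing (poles t) := by
  obtain ⟨a, b, hb, rfl⟩ := IsFractionRing.div_surjective (A := Algebra.adjoin k {t}) f
  have hb0 : b ≠ 0 := nonZeroDivisors.ne_zero hb
  obtain ⟨P, rfl⟩ := (polyEquiv t ht).surjective a
  obtain ⟨Q, rfl⟩ := (polyEquiv t ht).surjective b
  have hQ : Q ≠ 0 := by
    rintro rfl
    exact hb0 (map_zero _)
  have hQt : aeval t Q ≠ 0 := by
    intro h0
    exact hQ ((injective_iff_map_eq_zero _).1 (transcendental_iff_injective.1 ht) Q h0)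
  refine ⟨P / Q, ?_⟩
  have h1 : algebraMap (IntermediateField.adjoin k {t}) K
      (algebraMap (Algebra.adjoin k {t}) (IntermediateField.adjoin k {t}) (polyEquiv t ht P) /
      algebraMap (Algebra.adjoin k {t}) (IntermediateField.adjoin k {t}) (polyEquiv t ht Q)) =
      aeval t P / aeval t Q := by
    rw [map_div₀]
    rfl
  rw [h1]
  have h2 : aeval t P = aeval t Q * aeval t (P / Q) + aeval t (P % Q) := by
    rw [← map_mul, ← map_add, EuclideanDomain.div_add_mod]
  have h3 : aeval t P / aeval t Q - aeval t (P / Q) = aeval t (P % Q) / aeval t Q := by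
    rw [h2]
    field_simp
    ring
  rw [h3, mem_infRing_iff]
  intro v hv
  rcases eq_or_ne (P % Q) 0 with h0 | h0
  · rw [h0, map_zero, zero_div]
    exact v.zero_mem
  rw [← ValuationSubring.valuation_le_one_iff, map_div₀, val_aeval hv _ h0, val_aeval hv _ hQ]
  have hdeg : (P % Q).natDegree ≤ Q.natDegree :=
    natDegree_le_natDegree (degree_mod_lt P hQ).le
  have h4 := one_lt_val_of_mem_poles hv
  rw [div_le_one₀ (pow_pos (zero_lt_one.trans h4) _)]
  exact pow_le_pow_right₀ h4.le hdeg

theorem exists_basis_bound [Finite k] (t : K) (ht : Transcendental k t)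
    [hfin : FiniteDimensional (IntermediateField.adjoin k {t}) K] :
    ∃ (s : Finset K) (b : Module.Basis s (IntermediateField.adjoin k {t}) K) (M : ℕ),
      ∀ i, IsIntegral (Algebra.adjoin k {t}) (b i) ∧ b i * t⁻¹ ^ M ∈ infRing (poles t) := by
  have := isPID_adjoin t ht
  obtain ⟨s, b, hb⟩ := FiniteDimensional.exists_is_basis_integral (Algebra.adjoin k {t})
    (IntermediateField.adjoin k {t}) K
  choose M hM using fun i => exh_aux t ht hfin (b i)
  refine ⟨s, b, ∑ i, M i, fun i => ⟨hb i, ?_⟩⟩
  have h1 : M i ≤ ∑ i, M i := Finset.single_le_sum (fun _ _ => Nat.zero_le _) (Finset.mem_univ i)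
  have h2 : b i * t⁻¹ ^ (∑ i, M i) = (b i * t⁻¹ ^ M i) * t⁻¹ ^ ((∑ i, M i) - M i) := by
    rw [mul_assoc, ← pow_add, Nat.add_sub_cancel' h1]
  rw [h2]
  refine mul_mem (hM i) (pow_mem ?_ _)
  rw [mem_infRing_iff]
  intro v hv
  exact (ValuationSubring.valuation_le_one_iff _ _).1 (val_lt_one_of_mem_poles hv).le

theorem fin_aux [Finite k] (t : K) (ht : Transcendental k t)
    [hfin : FiniteDimensional (IntermediateField.adjoin k {t}) K]
    [hsep : Algebra.IsSeparable (IntermediateField.adjoin k {t}) K] (N : ℕ) :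
    {z : K | z ∈ affRing (poles t) ∧ z * t⁻¹ ^ N ∈ infRing (poles t)}.Finite := by
  obtain ⟨s, b, M, hb⟩ := exists_basis_bound t ht
  have hF : Set.Finite ((fun P : k[X] => aeval t P) '' {P : k[X] | P.natDegree ≤ N + M}) :=
    (finite_natDegree_le k (N + M)).image _
  have hPi : (Set.univ.pi (fun _ : s => ((fun P : k[X] => aeval t P) ''
      {P : k[X] | P.natDegree ≤ N + M}))).Finite := Set.Finite.pi (fun _ => hF)
  refine Set.Finite.of_injOn (f := fun z i => algebraMap (IntermediateField.adjoin k {t}) K
    (Algebra.trace (IntermediateField.adjoin k {t}) K (z * b i))) ?_ ?_ hPi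
  · rintro z ⟨hzA, hzO⟩ i -
    obtain ⟨v, hv⟩ := (poles_finite t ht hfin).2
    have h1 : IsIntegral (Algebra.adjoin k {t}) (z * b i) :=
      (mem_affRing_poles.1 hzA).mul (hb i).1
    obtain ⟨P, hP⟩ := trace_mem_adjoin t ht _ h1
    refine ⟨P, ?_, hP.symm⟩
    refine degree_le_of_mem hv P (N + M) ?_
    rw [← hP]
    have h2 : z * b i * t⁻¹ ^ (N + M) ∈ infRing (poles t) := by
      have : z * b i * t⁻¹ ^ (N + M) = (z * t⁻¹ ^ N) * (b i * t⁻¹ ^ M) := by
        rw [pow_add]
        ring
      rw [this]
      exact mul_mem hzO (hb i).2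
    have h3 := trace_mem_infRing t ht _ h2
    have h4 : z * b i * t⁻¹ ^ (N + M) =
        (IntermediateField.AdjoinSimple.gen k t)⁻¹ ^ (N + M) • (z * b i) := by
      rw [Algebra.smul_def, map_pow, map_inv₀, IntermediateField.AdjoinSimple.algebraMap_gen,
        mul_comm]
    rw [h4, map_smul, smul_eq_mul, map_mul, map_pow, map_inv₀,
      IntermediateField.AdjoinSimple.algebraMap_gen, mul_comm] at h3
    exact mem_infRing_iff.1 h3 v hv
  · rintro z ⟨hzA, hzO⟩ w ⟨hwA, hwO⟩ heq
    rw [← sub_eq_zero]
    have hnd := (traceForm_nondegenerate (IntermediateField.adjoin k {t}) K).1 (z - w)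
    apply hnd
    intro y
    rw [← b.sum_repr y, map_sum]
    apply Finset.sum_eq_zero
    intro i _
    rw [map_smul, Algebra.traceForm_apply, sub_mul, map_sub]
    have h1 := congrFun heq i
    have h2 := (algebraMap (IntermediateField.adjoin k {t}) K).injective h1
    rw [h2, sub_self, smul_zero]

theorem cov_aux [Finite k] (t : K) (ht : Transcendental k t)
    [hfin : FiniteDimensional (IntermediateField.adjoin k {t}) K] :
    ∃ N : ℕ, ∀ z : K, ∃ a ∈ affRing (poles t), (z - a) * t⁻¹ ^ N ∈ infRing (poles t) := by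
  obtain ⟨s, b, M, hb⟩ := exists_basis_bound t ht
  refine ⟨M, fun z => ?_⟩
  choose P hP using fun i => exists_poly_add t ht (b.repr z i)
  refine ⟨∑ i, aeval t (P i) * b i, ?_, ?_⟩
  · refine sum_mem (fun i _ => mul_mem ?_ ?_)
    · rw [mem_affRing_poles (k := k)]
      exact isIntegral_algebraMap (R := Algebra.adjoin k {t}) (A := K)
        (x := ⟨aeval t (P i), aeval_mem_adjoin_singleton k t⟩)
    · rw [mem_affRing_poles (k := k)]
      exact (hb i).1
  · have h1 : z = ∑ i, algebraMap (IntermediateField.adjoin k {t}) K (b.repr z i) * b i := by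
      conv_lhs => rw [← b.sum_repr z]
      refine Finset.sum_congr rfl (fun i _ => ?_)
      rw [Algebra.smul_def]
    have h2 : (z - ∑ i, aeval t (P i) * b i) * t⁻¹ ^ M =
        ∑ i, (algebraMap (IntermediateField.adjoin k {t}) K (b.repr z i) - aeval t (P i)) *
          (b i * t⁻¹ ^ M) := by
      conv_lhs => rw [h1]
      rw [← Finset.sum_sub_distrib, Finset.sum_mul]
      refine Finset.sum_congr rfl (fun i _ => ?_)
      ring
    rw [h2]
    exact sum_mem (fun i _ => mul_mem (hP i) (hb i).2)

end Pool.Agent.Helper70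

namespace Pool.Agent.Helper7

open Pool.Agent.Helper70

variable {k K : Type*} [Field k] [Finite k] [Field K] [Algebra k K]

/-- B3. The affine model attached to a separating element `t`. -/
theorem exists_model (t : K) (ht : Transcendental k t)
    (hfin : FiniteDimensional (IntermediateField.adjoin k {t}) K)
    (hsep : Algebra.IsSeparable (IntermediateField.adjoin k {t}) K) :
    ∃ 𝓜 : Model K, 𝓜.A = affRing (poles t) ∧ 𝓜.O = infRing (poles t) ∧ 𝓜.t = t := by
  obtain ⟨h1, h2, -⟩ := dedekind_affRing (k := k) t ht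
  have ht0 : t ≠ 0 := by
    rintro rfl
    exact ht isAlgebraic_zero
  refine ⟨{
    A := affRing (poles t)
    O := infRing (poles t)
    t := t
    t_ne := ht0
    t_mem := ?_
    tinv_mem := ?_
    fin := fin_aux t ht
    cov := cov_aux t ht
    unit := ?_
    exh := exh_aux t ht hfin
    infinite := ?_
    ded := h1
    frac := h2 }, rfl, rfl, rfl⟩
  · rw [mem_affRing_iff]
    intro v hv
    simpa [poles] using hv
  · rw [mem_infRing_iff]
    intro v hv
    exact (ValuationSubring.valuation_le_one_iff _ _).1 (val_lt_one_of_mem_poles hv).le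
  · intro z hz
    rw [mem_infRing_iff] at hz ⊢
    intro v hv
    rw [← ValuationSubring.valuation_le_one_iff, map_inv₀, Valuation.map_add_eq_of_lt_left]
    · simp
    · rw [map_one, map_mul]
      exact mul_lt_one_of_nonneg_of_lt_one_left zero_le (val_lt_one_of_mem_poles hv)
        ((ValuationSubring.valuation_le_one_iff _ _).2 (hz v hv))
  · intro i j hij
    have h3 : Polynomial.aeval t ((Polynomial.X : Polynomial k) ^ i) =
        Polynomial.aeval t ((Polynomial.X : Polynomial k) ^ j) := by
      simpa using hij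
    have h4 := transcendental_iff_injective.1 ht h3
    have h5 := congrArg Polynomial.natDegree h4
    simpa using h5

end Pool.Agent.Helper7
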