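import Pool.Agent.Helper70.FFB12

set_option autoImplicit false

namespace Pool.Agent.Helper70

open Pool.Agent.Helper7

variable {K : Type*} [Field K]

theorem ofP_congr {A : Subring K} [IsDedekindDomain A] [IsFractionRing A K]
    {P Q : Ideal A} [P.IsPrime] [Q.IsPrime] (hP : P ≠ ⊥) (hQ : Q ≠ ⊥) (h : P = Q) :
    ofP A P hP = ofP A Q hQ := by
  subst h
  rfl

/-- Places above `A` correspond to nonzero primes. -/
noncomputable def equivPlaces (t : K) [IsDedekindDomain (affRing (poles t))]
    [IsFractionRing (affRing (poles t)) K] :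
    {v : ValuationSubring K // v ≠ ⊤ ∧ t ∈ v} ≃
        {P : Ideal (affRing (poles t)) // P.IsPrime ∧ P ≠ ⊥} where
  toFun v := ⟨center (affRing (poles t)) v.1 (affRing_le v.2.2), center_isPrime _ _ _,
    center_ne_bot _ _ _ v.2.1⟩
  invFun P := ⟨@ofP K _ (affRing (poles t)) _ _ P.1 P.2.1 P.2.2,
    @ofP_ne_top K _ (affRing (poles t)) _ _ P.1 P.2.1 P.2.2,
    (@le_ofP K _ (affRing (poles t)) _ _ P.1 P.2.1 P.2.2)
      (mem_affRing_iff.2 (fun v hv => by simpa [poles] using hv))⟩
  left_inv v := Subtype.ext (ofP_center v.1 (affRing_le v.2.2) v.2.1)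
  right_inv P := Subtype.ext (@center_ofP K _ (affRing (poles t)) _ _ P.1 P.2.1 P.2.2)

end Pool.Agent.Helper70

namespace Pool.Agent.Helper7

open Pool.Agent.Helper70

variable {k K : Type*} [Field k] [Finite k] [Field K] [Algebra k K]

/-- B4. Closed points where `t` is regular correspond to nonzero primes of `affRing (poles t)`, with
the same residue field. -/
theorem exists_equiv_places (t : K) (ht : Transcendental k t)
    (hfin : FiniteDimensional (IntermediateField.adjoin k {t}) K)
    (hsep : Algebra.IsSeparable (IntermediateField.adjoin k {t}) K) :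
    ∃ e : {v : ValuationSubring K // v ≠ ⊤ ∧ t ∈ v} ≃
        {P : Ideal (affRing (poles t)) // P.IsPrime ∧ P ≠ ⊥},
      (∀ v, ∀ a : affRing (poles t), a ∈ (e v).1 ↔ (a : K) ∈ v.1.nonunits) ∧
      (∀ v, Nat.card (affRing (poles t) ⧸ (e v).1) = Nat.card (IsLocalRing.ResidueField v.1)) ∧
      (∀ v, ∀ z : K, z ∈ v.1 ↔ ∃ a b : affRing (poles t), b ∉ (e v).1 ∧ z = a / b) := by
  obtain ⟨h1, h2, -⟩ := dedekind_affRing (k := k) t ht
  refine ⟨equivPlaces t, ?_, ?_, ?_⟩
  · intro v a
    exact mem_center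
  · intro v
    exact card_quot_center _ v.1 (affRing_le v.2.2) v.2.1
  · intro v z
    exact mem_iff_center v.1 (affRing_le v.2.2) v.2.1 z

end Pool.Agent.Helper7
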