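import Pool.Agent.Helper70.FFDer

set_option autoImplicit false

namespace Pool.Agent.Helper70

open Pool.Agent.Helper7
open Polynomial
open scoped IntermediateField.algebraAdjoinAdjoin

section model

variable {K : Type*} [Field K] (𝓜 : Model K)

theorem model_pow_mem {z : K} {i j : ℕ} (hij : i ≤ j) (h : z * 𝓜.t⁻¹ ^ i ∈ 𝓜.O) :
    z * 𝓜.t⁻¹ ^ j ∈ 𝓜.O := by
  have h1 : z * 𝓜.t⁻¹ ^ j = z * 𝓜.t⁻¹ ^ i * 𝓜.t⁻¹ ^ (j - i) := by
    rw [mul_assoc, ← pow_add, Nat.add_sub_cancel' hij]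
  rw [h1]
  exact mul_mem h (pow_mem 𝓜.tinv_mem _)

theorem model_step (j : ℕ) : ∃ F : Set K, F.Finite ∧ ∀ z, z * 𝓜.t⁻¹ ^ (j + 1) ∈ 𝓜.O →
    ∃ f ∈ F, (z - f) * 𝓜.t⁻¹ ^ j ∈ 𝓜.O := by
  obtain ⟨N, hN⟩ := 𝓜.cov
  refine ⟨(fun a => a * 𝓜.t⁻¹ ^ N) '' _, (𝓜.fin (N + (j + 1))).image _, ?_⟩
  intro z hz
  obtain ⟨a, ha, haO⟩ := hN (z * 𝓜.t ^ N)
  have ht : 𝓜.t ^ N * 𝓜.t⁻¹ ^ N = 1 := by
    rw [← mul_pow, mul_inv_cancel₀ 𝓜.t_ne, one_pow]
  have h1 : z * 𝓜.t ^ N * 𝓜.t⁻¹ ^ (N + (j + 1)) ∈ 𝓜.O := by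
    have : z * 𝓜.t ^ N * 𝓜.t⁻¹ ^ (N + (j + 1)) =
        z * 𝓜.t⁻¹ ^ (j + 1) * (𝓜.t ^ N * 𝓜.t⁻¹ ^ N) := by
      rw [pow_add]
      ring
    rw [this, ht, mul_one]
    exact hz
  have h2 := model_pow_mem 𝓜 (show N ≤ N + (j + 1) by omega) haO
  refine ⟨a * 𝓜.t⁻¹ ^ N, ⟨a, ⟨ha, ?_⟩, rfl⟩, ?_⟩
  · have := sub_mem h1 h2
    rwa [← sub_mul, sub_sub_cancel] at this
  · have h3 : (z - a * 𝓜.t⁻¹ ^ N) * 𝓜.t⁻¹ ^ j = (z * 𝓜.t ^ N - a) * 𝓜.t⁻¹ ^ (N + j) := by
      rw [pow_add]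
      calc (z - a * 𝓜.t⁻¹ ^ N) * 𝓜.t⁻¹ ^ j
          = (z * 1 - a * 𝓜.t⁻¹ ^ N) * 𝓜.t⁻¹ ^ j := by rw [mul_one]
        _ = _ := by rw [← ht]; ring
    rw [h3]
    exact model_pow_mem 𝓜 (Nat.le_add_right N j) haO

theorem model_all (N : ℕ) : ∃ F : Set K, F.Finite ∧ ∀ z, z * 𝓜.t⁻¹ ^ N ∈ 𝓜.O →
    ∃ f ∈ F, z - f ∈ 𝓜.O := by
  induction N with
  | zero => exact ⟨{0}, Set.finite_singleton 0, fun z hz => ⟨0, rfl, by simpa using hz⟩⟩
  | succ N ih =>
    obtain ⟨F, hF, hF'⟩ := ih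
    obtain ⟨G, hG, hG'⟩ := model_step 𝓜 N
    refine ⟨Set.image2 (· + ·) G F, hG.image2 _ hF, fun z hz => ?_⟩
    obtain ⟨g, hg, hgO⟩ := hG' z hz
    obtain ⟨f, hf, hfO⟩ := hF' _ hgO
    refine ⟨g + f, Set.mem_image2_of_mem hg hf, ?_⟩
    rwa [← sub_sub]

/-- `K / (A + O)` is finite. -/
theorem model_finite : ∃ F : Set K, F.Finite ∧ ∀ z, ∃ f ∈ F, ∃ a ∈ 𝓜.A, z - a - f ∈ 𝓜.O := by
  obtain ⟨N, hN⟩ := 𝓜.cov
  obtain ⟨F, hF, hF'⟩ := model_all 𝓜 N
  refine ⟨F, hF, fun z => ?_⟩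
  obtain ⟨a, ha, haO⟩ := hN z
  obtain ⟨f, hf, hfO⟩ := hF' _ haO
  exact ⟨f, hf, a, ha, hfO⟩

theorem model_pigeonhole (z : ℕ → K) :
    ∃ i j, i < j ∧ ∃ a ∈ 𝓜.A, z j - z i - a ∈ 𝓜.O := by
  obtain ⟨F, hF, hF'⟩ := model_finite 𝓜
  choose f hf a ha hO using fun n => hF' (z n)
  have : Finite F := hF
  obtain ⟨i, j, hij, heq⟩ := Finite.exists_ne_map_eq_of_infinite (fun n : ℕ => (⟨f n, hf n⟩ : F))
  have heq' : f i = f j := congrArg Subtype.val heq
  wlog hlt : i < j generalizing i j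
  · exact this j i hij.symm heq.symm heq'.symm (lt_of_le_of_ne (not_lt.1 hlt) hij.symm)
  refine ⟨i, j, hlt, a j - a i, sub_mem (ha j) (ha i), ?_⟩
  have h1 := sub_mem (hO j) (hO i)
  have h2 : z j - a j - f j - (z i - a i - f i) = z j - z i - (a j - a i) := by
    rw [heq']
    ring
  rwa [h2] at h1

end model

variable {k K : Type*} [Field k] [Field K] [Algebra k K]

theorem ne_top_of_pole {y : K} {v : ValuationSubring K} (hv : v ∈ poles y) : v ≠ ⊤ := by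
  rintro rfl
  exact hv (ValuationSubring.mem_top y)

/-- Weak approximation at the poles of a separating element. -/
theorem exists_only_pole [Finite k] (x : K) (hx : Transcendental k x)
    (hfin : FiniteDimensional (IntermediateField.adjoin k {x}) K)
    (hsep : Algebra.IsSeparable (IntermediateField.adjoin k {x}) K)
    (v : ValuationSubring K) (hv : v ∈ poles x) :
    ∃ z : K, z ∉ v ∧ ∀ w ∈ poles x, w ≠ v → z ∈ w := by
  classical
  have hpf := (poles_finite x hx hfin).1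
  rw [← adjoin_inv x] at hfin hsep
  have hx' := transcendental_inv hx
  obtain ⟨h1, h2, -⟩ := dedekind_affRing (k := k) x⁻¹ hx'
  have hmem : ∀ w ∈ poles x, x⁻¹ ∈ w := by
    intro w hw
    exact (ValuationSubring.valuation_le_one_iff _ _).1 (val_lt_one_of_mem_poles hw).le
  let A := affRing (poles x⁻¹)
  let f : ValuationSubring K → Ideal A := fun w =>
    if h : A ≤ w.toSubring then center A w h else ⊥
  have hf : ∀ w ∈ poles x, ∀ h : A ≤ w.toSubring, f w = center A w h := by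
    intro w hw h
    simp only [f, dif_pos h]
  have hle : ∀ w ∈ poles x, A ≤ w.toSubring := fun w hw => affRing_le (hmem w hw)
  have h3 : ¬ ((f v : Set A) ⊆ ⋃ w ∈ ((hpf.toFinset.erase v : Finset (ValuationSubring K)) :
      Set (ValuationSubring K)), (f w : Set A)) := by
    rw [Ideal.subset_union_prime v v]
    · rintro ⟨w, hw, hwv⟩
      rw [Finset.mem_erase, Set.Finite.mem_toFinset] at hw
      rw [hf v hv (hle v hv), hf w hw.2 (hle w hw.2)] at hwv
      have hmax : (center A v (hle v hv)).IsMaximal :=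
        (center_isPrime A v (hle v hv)).isMaximal
          (center_ne_bot A v (hle v hv) (ne_top_of_pole hv))
      have heq := hmax.eq_of_le (center_isPrime A w (hle w hw.2)).ne_top hwv
      exact hw.1 (center_injective (hle v hv) (ne_top_of_pole hv) (hle w hw.2)
        (ne_top_of_pole hw.2) heq).symm
    · intro w hw _ _
      rw [Finset.mem_erase, Set.Finite.mem_toFinset] at hw
      rw [hf w hw.2 (hle w hw.2)]
      exact center_isPrime _ _ _
  rw [Set.not_subset] at h3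
  obtain ⟨b, hb, hb'⟩ := h3
  rw [hf v hv (hle v hv), SetLike.mem_coe, mem_center, ValuationSubring.mem_nonunits_iff_or] at hb
  simp only [Set.mem_iUnion, not_exists] at hb'
  rcases eq_or_ne (b : K) 0 with h0 | h0
  · -- `b = 0` is impossible unless there is no other pole
    refine ⟨x, hv, fun w hw hwv => ?_⟩
    exfalso
    apply hb' w (Finset.mem_erase.2 ⟨hwv, (Set.Finite.mem_toFinset hpf).2 hw⟩)
    rw [show b = 0 from Subtype.ext h0]
    exact Ideal.zero_mem _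
  refine ⟨(b : K)⁻¹, hb.resolve_left h0, fun w hw hwv => ?_⟩
  have h4 := hb' w (Finset.mem_erase.2 ⟨hwv, (Set.Finite.mem_toFinset hpf).2 hw⟩)
  rw [hf w hw (hle w hw), SetLike.mem_coe, mem_center, ValuationSubring.mem_nonunits_iff_or] at h4
  push Not at h4
  exact h4.2

/-- A function with a single pole. -/
theorem exists_single_pole [Finite k] (t : K) (ht : Transcendental k t)
    (hfin : FiniteDimensional (IntermediateField.adjoin k {t}) K)
    (v : ValuationSubring K) (hv : v ≠ ⊤) : ∃ f : K, poles f = {v} := by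
  obtain ⟨x, hx, hfx, hsx, hvx⟩ := exists_separating_pole t ht hfin v hv
  obtain ⟨𝓜, hA, hO, -⟩ := exists_model x hx hfx hsx
  obtain ⟨z, hzv, hz⟩ := exists_only_pole x hx hfx hsx v hvx
  obtain ⟨i, j, hij, a, ha, haO⟩ := model_pigeonhole 𝓜 (fun n => z ^ n)
  rw [hA, mem_affRing_iff] at ha
  rw [hO, mem_infRing_iff] at haO
  refine ⟨a, ?_⟩
  ext w
  rw [Set.mem_singleton_iff]
  constructor
  · intro hw
    by_contra hwv
    have hwx : w ∈ poles x := by
      by_contra h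
      exact hw (ha w h)
    have h1 := hz w hwx hwv
    apply hw
    have h2 := sub_mem (sub_mem (pow_mem h1 j) (pow_mem h1 i)) (haO w hwx)
    rwa [sub_sub_cancel] at h2
  · rintro rfl
    intro haw
    have h1 := add_mem (haO w hvx) haw
    rw [sub_add_cancel] at h1
    rw [← ValuationSubring.valuation_le_one_iff] at h1
    have h2 : 1 < w.valuation z := by
      rw [← not_le, ValuationSubring.valuation_le_one_iff]
      exact hzv
    rw [Valuation.map_sub_eq_of_lt_left] at h1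
    · rw [map_pow] at h1
      exact absurd h1 (not_le.2 (one_lt_pow₀ h2 (by omega)))
    · rw [map_pow, map_pow]
      exact pow_lt_pow_right₀ h2 hij

end Pool.Agent.Helper70
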