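import Pool.Agent.Helper7.Model

set_option autoImplicit false

namespace Pool.Agent.Helper7

/-- The poles of a function. -/
def poles {K : Type*} [Field K] (t : K) : Set (ValuationSubring K) := {v | t ∉ v}

end Pool.Agent.Helper7

namespace Pool.Agent.Helper70

open Pool.Agent.Helper7

open scoped IntermediateField.algebraAdjoinAdjoin

variable {k K : Type*} [Field k] [Field K] [Algebra k K]

theorem const_mem [Finite k] (v : ValuationSubring K) (c : k) : algebraMap k K c ∈ v := by
  classical
  have := Fintype.ofFinite k
  rcases eq_or_ne c 0 with rfl | hc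
  · rw [map_zero]
    exact v.zero_mem
  · rw [← ValuationSubring.valuation_le_one_iff]
    have h1 : c ^ (Fintype.card k - 1) = 1 := FiniteField.pow_card_sub_one_eq_one c hc
    have h2 : (v.valuation (algebraMap k K c)) ^ (Fintype.card k - 1) = 1 := by
      rw [← map_pow, ← map_pow, h1, map_one, map_one]
    have h3 : Fintype.card k - 1 ≠ 0 := by
      have := Fintype.one_lt_card (α := k)
      omega
    exact ((pow_eq_one_iff_of_nonneg zero_le h3).1 h2).le

theorem adjoin_le [Finite k] (v : ValuationSubring K) (t : K) (ht : t ∈ v) :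
    (Algebra.adjoin k {t}).toSubring ≤ v.toSubring := by
  intro z hz
  refine Algebra.adjoin_induction (s := {t}) (p := fun z _ => z ∈ v) ?_ ?_ ?_ ?_ hz
  · intro x hx
    rw [Set.mem_singleton_iff] at hx
    rwa [hx]
  · intro c
    exact const_mem v c
  · intro x y _ _ hx hy
    exact v.add_mem _ _ hx hy
  · intro x y _ _ hx hy
    exact v.mul_mem _ _ hx hy

theorem mem_of_isIntegral (v : ValuationSubring K) (R : Subring K) (hR : R ≤ v.toSubring) (z : K)
    (hz : IsIntegral R z) : z ∈ v := by
  have : IsIntegrallyClosedIn v.toSubring K := inferInstanceAs (IsIntegrallyClosedIn v K)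
  obtain ⟨p, hp, hpz⟩ := hz
  have h2 : IsIntegral v.toSubring z := by
    refine ⟨p.map (Subring.inclusion hR), hp.map _, ?_⟩
    rw [Polynomial.eval₂_map]
    exact hpz
  obtain ⟨y, hy⟩ := (isIntegrallyClosedIn_iff.1 this).2 h2
  rw [← hy]
  exact y.2

/-- The affine ring of functions regular outside the poles of `t` is the integral closure of
`k[t]`. -/
theorem affRing_poles [Finite k] (t : K) :
    affRing (poles t) = (integralClosure (Algebra.adjoin k {t}) K).toSubring := by
  have h1 : IsIntegrallyClosedIn (integralClosure (Algebra.adjoin k {t}) K).toSubring K :=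
    inferInstanceAs (IsIntegrallyClosedIn (integralClosure (Algebra.adjoin k {t}) K) K)
  rw [Subring.eq_iInf_of_isIntegrallyClosedIn
    (R := (integralClosure (Algebra.adjoin k {t}) K).toSubring)]
  rw [iInf_subtype]
  unfold affRing
  congr! with v
  rw [Set.mem_compl_iff]
  simp only [poles, Set.mem_ofPred_eq, not_not]
  constructor
  · intro ht z hz
    exact mem_of_isIntegral v _ (adjoin_le (k := k) v t ht) z hz
  · intro h
    apply h
    exact (isIntegral_algebraMap (R := Algebra.adjoin k {t}) (A := K)
      (x := ⟨t, Algebra.self_mem_adjoin_singleton k t⟩))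

theorem mem_affRing_iff {S : Set (ValuationSubring K)} {z : K} :
    z ∈ affRing S ↔ ∀ v ∉ S, z ∈ v := by
  simp only [affRing, Subring.mem_iInf]
  rfl

theorem mem_infRing_iff {S : Set (ValuationSubring K)} {z : K} :
    z ∈ infRing S ↔ ∀ v ∈ S, z ∈ v := by
  simp only [infRing, Subring.mem_iInf]
  rfl

theorem mem_affRing_poles [Finite k] {t z : K} :
    z ∈ affRing (poles t) ↔ IsIntegral (Algebra.adjoin k {t}) z := by
  rw [affRing_poles (k := k)]
  rfl

end Pool.Agent.Helper70
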