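import Pool.Agent.Helper70.FFBasic

set_option autoImplicit false

namespace Pool.Agent.Helper70

open Pool.Agent.Helper7

variable {K : Type*} [Field K]

/-- The center of a valuation subring on a subring. -/
def center (A : Subring K) (v : ValuationSubring K) (h : A ≤ v.toSubring) : Ideal A :=
  (IsLocalRing.maximalIdeal v).comap (Subring.inclusion h : A →+* v.toSubring)

theorem mem_center {A : Subring K} {v : ValuationSubring K} {h : A ≤ v.toSubring} {a : A} :
    a ∈ center A v h ↔ (a : K) ∈ v.nonunits := by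
  unfold center
  rw [Ideal.mem_comap]
  exact (ValuationSubring.coe_mem_nonunits_iff (A := v) (a := (Subring.inclusion h a : v.toSubring))).symm

instance center_isPrime (A : Subring K) (v : ValuationSubring K) (h : A ≤ v.toSubring) :
    (center A v h).IsPrime :=
  Ideal.IsPrime.comap _

theorem center_ne_bot (A : Subring K) [IsFractionRing A K] (v : ValuationSubring K)
    (h : A ≤ v.toSubring) (hv : v ≠ ⊤) : center A v h ≠ ⊥ := by
  intro h0
  apply hv
  rw [eq_top_iff]
  intro z _
  obtain ⟨a, b, hb, rfl⟩ := IsFractionRing.div_surjective (A := A) z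
  have hb0 : b ≠ 0 := nonZeroDivisors.ne_zero hb
  have hb1 : b ∉ center A v h := by
    rw [h0]
    simpa using hb0
  rw [mem_center, ValuationSubring.mem_nonunits_iff_or] at hb1
  push Not at hb1
  rw [div_eq_mul_inv]
  exact v.mul_mem _ _ (h a.2) hb1.2

theorem mem_ofPrime {A : Subring K} {P : Ideal A} [P.IsPrime] {z : K} :
    z ∈ (LocalSubring.ofPrime A P).toSubring ↔ ∃ a b : A, b ∉ P ∧ z = a / b := by
  constructor
  · intro hz
    obtain ⟨⟨a, b⟩, h⟩ := IsLocalization.surj (M := P.primeCompl) (⟨z, hz⟩ : (LocalSubring.ofPrime A P).toSubring)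
    refine ⟨a, b, b.2, ?_⟩
    have h1 : z * (b : A) = (a : A) := congrArg Subtype.val h
    have hb : ((b : A) : K) ≠ 0 := by
      intro h0
      apply b.2
      rw [show (b : A) = 0 from Subtype.ext h0]
      exact P.zero_mem
    rw [eq_div_iff hb, h1]
  · rintro ⟨a, b, hb, rfl⟩
    have h1 : IsLocalization.mk' (LocalSubring.ofPrime A P).toSubring a (⟨b, hb⟩ : P.primeCompl) *
      algebraMap A (LocalSubring.ofPrime A P).toSubring b =
        algebraMap A (LocalSubring.ofPrime A P).toSubring a :=
      IsLocalization.mk'_spec _ a (⟨b, hb⟩ : P.primeCompl)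
    have h2 := congrArg (Subtype.val) h1
    have hb : (b : K) ≠ 0 := by
      intro h0
      apply hb
      rw [show (b : A) = 0 from Subtype.ext h0]
      exact P.zero_mem
    have h3 : (a : K) / b = (IsLocalization.mk' (LocalSubring.ofPrime A P).toSubring a
      (⟨b, by assumption⟩ : P.primeCompl) : (LocalSubring.ofPrime A P).toSubring) := by
      rw [div_eq_iff hb]
      exact h2.symm
    rw [h3]
    exact SetLike.coe_mem _

theorem isDVR_ofPrime (A : Subring K) [IsDedekindDomain A] (P : Ideal A) [P.IsPrime]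
    (hP : P ≠ ⊥) : IsDiscreteValuationRing (LocalSubring.ofPrime A P).toSubring :=
  IsLocalization.AtPrime.isDiscreteValuationRing_of_dedekind_domain A hP _

/-- The valuation subring attached to a nonzero prime of a Dedekind domain. -/
theorem ofPrime_mem_or_inv_mem (A : Subring K) [IsDedekindDomain A] [IsFractionRing A K]
    (P : Ideal A) [P.IsPrime] (hP : P ≠ ⊥) (z : K) :
    z ∈ (LocalSubring.ofPrime A P).toSubring ∨ z⁻¹ ∈ (LocalSubring.ofPrime A P).toSubring := by
  have := isDVR_ofPrime A P hP
  obtain ⟨a, b, hb, rfl⟩ := IsFractionRing.div_surjective (A := A) z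
  have hb0 : b ≠ 0 := nonZeroDivisors.ne_zero hb
  rcases eq_or_ne a 0 with rfl | ha0
  · left
    rw [map_zero, zero_div]
    exact zero_mem _
  have hb1 : (b : K) ≠ 0 := fun h => hb0 (Subtype.ext h)
  have ha1 : (a : K) ≠ 0 := fun h => ha0 (Subtype.ext h)
  let a' : (LocalSubring.ofPrime A P).toSubring := ⟨a, LocalSubring.le_ofPrime A P a.2⟩
  let b' : (LocalSubring.ofPrime A P).toSubring := ⟨b, LocalSubring.le_ofPrime A P b.2⟩
  rcases ValuationRing.cond a' b' with ⟨c, hc | hc⟩
  · right
    have h1 : (a : K) * c = b := congrArg Subtype.val hc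
    have h2 : ((algebraMap A K) a / (algebraMap A K) b)⁻¹ = c := by
      change ((a : K) / b)⁻¹ = c
      rw [inv_div, div_eq_iff ha1, ← h1, mul_comm]
    rw [h2]
    exact c.2
  · left
    have h1 : (b : K) * c = a := congrArg Subtype.val hc
    have h2 : ((algebraMap A K) a / (algebraMap A K) b) = c := by
      change ((a : K) / b) = c
      rw [div_eq_iff hb1, ← h1, mul_comm]
    rw [h2]
    exact c.2

/-- The valuation subring attached to a nonzero prime of a Dedekind domain. -/
noncomputable def ofP (A : Subring K) [IsDedekindDomain A] [IsFractionRing A K]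
    (P : Ideal A) [P.IsPrime] (hP : P ≠ ⊥) : ValuationSubring K :=
  ValuationSubring.ofSubring (LocalSubring.ofPrime A P).toSubring (ofPrime_mem_or_inv_mem A P hP)

theorem mem_ofP {A : Subring K} [IsDedekindDomain A] [IsFractionRing A K]
    {P : Ideal A} [P.IsPrime] {hP : P ≠ ⊥} {z : K} :
    z ∈ ofP A P hP ↔ ∃ a b : A, b ∉ P ∧ z = a / b :=
  mem_ofPrime

theorem le_ofP {A : Subring K} [IsDedekindDomain A] [IsFractionRing A K]
    {P : Ideal A} [P.IsPrime] {hP : P ≠ ⊥} : A ≤ (ofP A P hP).toSubring :=
  LocalSubring.le_ofPrime A P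

theorem mem_nonunits_ofP {A : Subring K} [IsDedekindDomain A] [IsFractionRing A K]
    {P : Ideal A} [P.IsPrime] {hP : P ≠ ⊥} {a : A} :
    (a : K) ∈ (ofP A P hP).nonunits ↔ a ∈ P := by
  rw [ValuationSubring.mem_nonunits_iff_or]
  constructor
  · intro h
    by_contra ha
    rcases h with h | h
    · apply ha
      rw [show a = 0 from Subtype.ext h]
      exact P.zero_mem
    · apply h
      rw [mem_ofP]
      exact ⟨1, a, ha, by simp⟩
  · intro ha
    by_contra h
    push Not at h
    obtain ⟨h0, h⟩ := h
    rw [mem_ofP] at h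
    obtain ⟨b, c, hc, h⟩ := h
    have hc0 : (c : K) ≠ 0 := by
      intro h0
      apply hc
      rw [show (c : A) = 0 from Subtype.ext h0]
      exact P.zero_mem
    rw [inv_eq_iff_eq_inv, inv_div, eq_div_iff] at h
    · apply hc
      have : c = a * b := Subtype.ext h.symm
      rw [this]
      exact P.mul_mem_right _ ha
    · intro hb
      rw [hb, div_zero] at h
      exact h0 h

theorem ofP_ne_top {A : Subring K} [IsDedekindDomain A] [IsFractionRing A K]
    {P : Ideal A} [P.IsPrime] {hP : P ≠ ⊥} : ofP A P hP ≠ ⊤ := by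
  intro h
  obtain ⟨a, ha, ha0⟩ := Submodule.exists_mem_ne_zero_of_ne_bot hP
  have h1 : (a : K) ∈ (ofP A P hP).nonunits := mem_nonunits_ofP.2 ha
  rw [h, ValuationSubring.mem_nonunits_iff_or] at h1
  rcases h1 with h1 | h1
  · exact ha0 (Subtype.ext h1)
  · exact h1 (ValuationSubring.mem_top _)

theorem isDVR_ofP {A : Subring K} [IsDedekindDomain A] [IsFractionRing A K]
    {P : Ideal A} [P.IsPrime] {hP : P ≠ ⊥} : IsDiscreteValuationRing (ofP A P hP) :=
  isDVR_ofPrime A P hP

theorem center_ofP {A : Subring K} [IsDedekindDomain A] [IsFractionRing A K]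
    {P : Ideal A} [P.IsPrime] {hP : P ≠ ⊥} : center A (ofP A P hP) le_ofP = P := by
  ext a
  rw [mem_center, mem_nonunits_ofP]

theorem ofP_center {A : Subring K} [IsDedekindDomain A] [IsFractionRing A K]
    (v : ValuationSubring K) (h : A ≤ v.toSubring) (hv : v ≠ ⊤) :
    ofP A (center A v h) (center_ne_bot A v h hv) = v := by
  have := isDVR_ofP (A := A) (hP := center_ne_bot A v h hv)
  refine ValuationSubring.eq_of_le_of_ne_top _ ?_ hv
  intro z hz
  rw [mem_ofP] at hz
  obtain ⟨a, b, hb, rfl⟩ := hz
  rw [mem_center, ValuationSubring.mem_nonunits_iff_or] at hb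
  push Not at hb
  rw [div_eq_mul_inv]
  exact v.mul_mem _ _ (h a.2) hb.2

theorem isDVR_of_dedekind (A : Subring K) [IsDedekindDomain A] [IsFractionRing A K]
    (v : ValuationSubring K) (h : A ≤ v.toSubring) (hv : v ≠ ⊤) :
    IsDiscreteValuationRing v := by
  rw [← ofP_center v h hv]
  exact isDVR_ofP

/-- The quotient by the center is the residue field. -/
theorem card_quot_center (A : Subring K) [IsDedekindDomain A] [IsFractionRing A K]
    (v : ValuationSubring K) (h : A ≤ v.toSubring) (hv : v ≠ ⊤) :
    Nat.card (A ⧸ center A v h) = Nat.card (IsLocalRing.ResidueField v) := by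
  have hmax : (center A v h).IsMaximal :=
    (center_isPrime A v h).isMaximal (center_ne_bot A v h hv)
  refine Nat.card_congr (Equiv.ofBijective
    (Ideal.Quotient.lift (center A v h)
      ((IsLocalRing.residue v).comp (Subring.inclusion h : A →+* v.toSubring)) ?_) ⟨?_, ?_⟩)
  · intro a ha
    rw [RingHom.comp_apply]
    rw [IsLocalRing.residue_eq_zero_iff]
    exact ha
  · letI := Ideal.Quotient.field (center A v h)
    exact RingHom.injective _
  · intro y
    obtain ⟨z, rfl⟩ := IsLocalRing.residue_surjective y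
    have hz : (z : K) ∈ ofP A (center A v h) (center_ne_bot A v h hv) := by
      rw [ofP_center v h hv]
      exact z.2
    rw [mem_ofP] at hz
    obtain ⟨a, b, hb, hz⟩ := hz
    let := Ideal.Quotient.field (center A v h)
    have hb' : Ideal.Quotient.mk (center A v h) b ≠ 0 := by
      intro h0
      exact hb (Ideal.Quotient.eq_zero_iff_mem.1 h0)
    refine ⟨Ideal.Quotient.mk _ a / Ideal.Quotient.mk _ b, ?_⟩
    rw [map_div₀]
    rw [div_eq_iff ((map_ne_zero _).2 hb')]
    rw [Ideal.Quotient.lift_mk, Ideal.Quotient.lift_mk]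
    rw [RingHom.comp_apply, RingHom.comp_apply]
    rw [← map_mul]
    congr 1
    have hb0 : (b : K) ≠ 0 := by
      intro h0
      apply hb
      rw [show (b : A) = 0 from Subtype.ext h0]
      exact Ideal.zero_mem _
    apply Subtype.ext
    change (a : K) = z * b
    rw [hz, div_mul_cancel₀ _ hb0]

end Pool.Agent.Helper70
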