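import Pool.Agent.Helper70.FFB3

set_option autoImplicit false

namespace Pool.Agent.Helper70

open Pool.Agent.Helper7
open Polynomial
open scoped IntermediateField.algebraAdjoinAdjoin

variable {k K : Type*} [Field k] [Field K] [Algebra k K]

/-- The field of constants of a derivation. -/
def derConst (D : Derivation k K K) : IntermediateField k K where
  carrier := {z | D z = 0}
  mul_mem' := by
    intro a b ha hb
    rw [Set.mem_ofPred_eq] at ha hb ⊢
    rw [D.leibniz, ha, hb, smul_zero, smul_zero, add_zero]
  one_mem' := D.map_one_eq_zero
  add_mem' := by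
    intro a b ha hb
    rw [Set.mem_ofPred_eq] at ha hb ⊢
    rw [map_add, ha, hb, add_zero]
  zero_mem' := map_zero D
  algebraMap_mem' := fun r => D.map_algebraMap r
  inv_mem' := by
    intro a ha
    rw [Set.mem_ofPred_eq] at ha ⊢
    rw [D.leibniz_inv, ha, smul_zero]

theorem mem_derConst {D : Derivation k K K} {z : K} : z ∈ derConst D ↔ D z = 0 := Iff.rfl

/-- A derivation killing a separating element is zero. -/
theorem der_eq_zero (x : K) [Algebra.IsSeparable (IntermediateField.adjoin k {x}) K]
    (D : Derivation k K K) (hD : D x = 0) (w : K) : D w = 0 := by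
  have hle : IntermediateField.adjoin k {x} ≤ derConst D :=
    IntermediateField.adjoin_simple_le_iff.2 hD
  have hsep : IsSeparable (IntermediateField.adjoin k {x}) w :=
    Algebra.IsSeparable.isSeparable _ w
  set m := minpoly (IntermediateField.adjoin k {x}) w with hm
  let D' : Derivation (IntermediateField.adjoin k {x}) K K :=
    { toFun := D
      map_add' := map_add D
      map_smul' := by
        intro f z
        have hf : D (f : K) = 0 := hle f.2
        change D (f • z) = f • D z
        rw [Algebra.smul_def, Algebra.smul_def]
        change D ((f : K) * z) = (f : K) * D z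
        rw [D.leibniz, hf, smul_zero, add_zero]
        rfl
      map_one_eq_zero' := D.map_one_eq_zero
      leibniz' := D.leibniz }
  have h1 : aeval w m = 0 := minpoly.aeval _ _
  have h2 : aeval w (derivative m) ≠ 0 := hsep.aeval_derivative_ne_zero h1
  have h3 := D'.map_aeval m w
  rw [h1, map_zero, smul_eq_mul] at h3
  exact (mul_eq_zero.1 h3.symm).resolve_left h2

theorem isSeparable_of_der (F L : Type*) [Field F] [Field L] [Algebra F L]
    [FiniteDimensional F L] (h : ∀ D : Derivation F L L, ∀ w, D w = 0) :
    Algebra.IsSeparable F L := by
  have h1 : ∀ w : L, KaehlerDifferential.D F L w = 0 := by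
    intro w
    rw [← Module.forall_dual_apply_eq_zero_iff L]
    intro φ
    exact h (φ.compDer (KaehlerDifferential.D F L)) w
  have h2 : Algebra.FormallyUnramified F L := by
    constructor
    rw [← Submodule.subsingleton_iff L, ← subsingleton_iff_bot_eq_top]
    rw [← KaehlerDifferential.span_range_derivation]
    symm
    rw [Submodule.span_eq_bot]
    rintro _ ⟨w, rfl⟩
    exact h1 w
  exact Algebra.FormallyUnramified.isSeparable F L

/-- Transfer of separability. -/
theorem isSeparable_of_der_imp (x : K) [Algebra.IsSeparable (IntermediateField.adjoin k {x}) K]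
    (y : K) [FiniteDimensional (IntermediateField.adjoin k {y}) K]
    (h : ∀ D : Derivation k K K, D y = 0 → D x = 0) :
    Algebra.IsSeparable (IntermediateField.adjoin k {y}) K := by
  apply isSeparable_of_der
  intro D w
  have h1 := h (D.restrictScalars k) (by
    have := D.map_algebraMap (IntermediateField.AdjoinSimple.gen k y)
    rwa [IntermediateField.AdjoinSimple.algebraMap_gen] at this)
  exact der_eq_zero x (D.restrictScalars k) h1 w

theorem der_pow_char (p : ℕ) [CharP K p] (D : Derivation k K K) (b : K) : D (b ^ p) = 0 := by
  rw [D.leibniz_pow, ← Nat.cast_smul_eq_nsmul K, CharP.cast_eq_zero, zero_smul]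

theorem transcendental_of_pole [Finite k] {y : K} {v : ValuationSubring K} (hv : v ∈ poles y) :
    Transcendental k y := by
  intro h
  apply hv
  exact mem_of_isIntegral' v (fun r => const_mem v r) y h.isIntegral

/-- A separating element with a pole at a given place. -/
theorem exists_separating_pole [Finite k] (t : K) (ht : Transcendental k t)
    (hfin : FiniteDimensional (IntermediateField.adjoin k {t}) K)
    (v : ValuationSubring K) (hv : v ≠ ⊤) :
    ∃ x : K, Transcendental k x ∧ FiniteDimensional (IntermediateField.adjoin k {x}) K ∧
      Algebra.IsSeparable (IntermediateField.adjoin k {x}) K ∧ v ∈ poles x := by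
  obtain ⟨x, hx, hfx, hsx⟩ := exists_separating t ht hfin
  by_cases hxv : v ∈ poles x
  · exact ⟨x, hx, hfx, hsx, hxv⟩
  have hxv' : x ∈ v := by
    by_contra h
    exact hxv h
  obtain ⟨p, hp⟩ := CharP.exists K
  have hp0 : p ≠ 0 := by
    rintro rfl
    have : CharP k 0 := RingHom.charP (algebraMap k K) (algebraMap k K).injective 0
    have : CharZero k := CharP.charP_to_charZero k
    exact (inferInstance : Infinite k).not_finite inferInstance
  obtain ⟨y, hy⟩ : ∃ y : K, y ∉ v := by
    by_contra h
    push Not at h
    apply hv
    rw [eq_top_iff]
    intro z _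
    exact h z
  have hyp : y ^ p ∉ v := by
    rw [← ValuationSubring.valuation_le_one_iff, map_pow, not_le]
    apply one_lt_pow₀ _ hp0
    rw [← not_le, ValuationSubring.valuation_le_one_iff]
    exact hy
  have hpole : v ∈ poles (x + y ^ p) := by
    intro h
    apply hyp
    have := sub_mem h hxv'
    rwa [add_sub_cancel_left] at this
  have htr : Transcendental k (x + y ^ p) := transcendental_of_pole hpole
  have hfin' := finite_of_transcendental t ht hfin _ htr
  refine ⟨x + y ^ p, htr, hfin', ?_, hpole⟩
  apply isSeparable_of_der_imp x (x + y ^ p)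
  intro D hD
  rwa [map_add, der_pow_char p D y, add_zero] at hD

end Pool.Agent.Helper70
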