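import Pool.Agent.Helper70.FFB4

set_option autoImplicit false

namespace Pool.Agent.Helper70

open Pool.Agent.Helper7
open Polynomial
open scoped IntermediateField.algebraAdjoinAdjoin

variable {k K : Type*} [Field k] [Field K] [Algebra k K]

theorem val_const [Finite k] (v : ValuationSubring K) (c : k) (hc : c ≠ 0) :
    v.valuation (algebraMap k K c) = 1 := by
  apply le_antisymm
  · rw [ValuationSubring.valuation_le_one_iff]
    exact const_mem v c
  · have h1 : v.valuation (algebraMap k K c⁻¹) ≤ 1 := by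
      rw [ValuationSubring.valuation_le_one_iff]
      exact const_mem v c⁻¹
    rw [map_inv₀, map_inv₀] at h1
    have hc' : v.valuation (algebraMap k K c) ≠ 0 := by
      rw [Valuation.ne_zero_iff]
      simpa using hc
    have := one_le_inv₀ (a := (v.valuation (algebraMap k K c))⁻¹) (by
      rw [zero_lt_iff]
      exact inv_ne_zero hc')
    rw [inv_inv] at this
    exact this.2 h1

theorem val_aeval_of_coeff_zero [Finite k] (v : ValuationSubring K) (y : K)
    (hy : v.valuation y < 1) (Q : k[X]) (hQ : Q.coeff 0 ≠ 0) :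
    v.valuation (aeval y Q) = 1 := by
  have h1 : ∀ R : k[X], v.valuation (aeval y R) ≤ 1 := by
    intro R
    rw [ValuationSubring.valuation_le_one_iff]
    apply adjoin_le (k := k) v y ((ValuationSubring.valuation_le_one_iff _ _).1 hy.le)
    exact aeval_mem_adjoin_singleton k y
  rw [← Q.divX_mul_X_add, map_add, map_mul, aeval_X, aeval_C]
  rw [Valuation.map_add_eq_of_lt_right]
  · exact val_const v _ hQ
  · rw [val_const v _ hQ, map_mul]
    exact mul_lt_one_of_nonneg_of_lt_one_right (h1 _) zero_le hy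

theorem val_lt_one_of_mem_poles {v : ValuationSubring K} {t : K} (h : v ∈ poles t) :
    v.valuation t⁻¹ < 1 := by
  rw [← ValuationSubring.mem_nonunits_iff, ValuationSubring.inv_mem_nonunits_iff]
  exact Or.inr h

theorem ne_zero_of_mem_poles {v : ValuationSubring K} {t : K} (h : v ∈ poles t) : t ≠ 0 := by
  rintro rfl
  exact h v.zero_mem

theorem one_lt_val_of_mem_poles {v : ValuationSubring K} {t : K} (h : v ∈ poles t) :
    1 < v.valuation t := by
  rw [← not_le, ValuationSubring.valuation_le_one_iff]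
  exact h

theorem val_aeval [Finite k] {v : ValuationSubring K} {t : K} (h : v ∈ poles t) (P : k[X])
    (hP : P ≠ 0) : v.valuation (aeval t P) = v.valuation t ^ P.natDegree := by
  have ht : t ≠ 0 := ne_zero_of_mem_poles h
  let : Invertible t := invertibleOfNonzero ht
  have h1 := eval₂_reverse_mul_pow (algebraMap k K) t P
  rw [← aeval_def, ← aeval_def] at h1
  rw [← h1, map_mul, map_pow, val_aeval_of_coeff_zero, one_mul]
  · rw [invOf_eq_inv]
    exact val_lt_one_of_mem_poles h
  · rw [coeff_zero_reverse]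
    simpa using hP

theorem exists_pow_mem_of_isDVR (v : ValuationSubring K) [IsDiscreteValuationRing v] (y : K)
    (hy : v.valuation y < 1) (z : K) : ∃ N : ℕ, z * y ^ N ∈ v := by
  rcases eq_or_ne z 0 with rfl | hz
  · exact ⟨0, by rw [zero_mul]; exact v.zero_mem⟩
  rcases v.mem_or_inv_mem z with h | h
  · exact ⟨0, by simpa using h⟩
  have hy' : y ∈ v := (ValuationSubring.valuation_le_one_iff _ _).1 hy.le
  obtain ⟨ϖ, hϖ⟩ := IsDiscreteValuationRing.exists_irreducible v
  have hz0 : (⟨z⁻¹, h⟩ : v) ≠ 0 := by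
    intro h0
    exact inv_ne_zero hz (congrArg Subtype.val h0)
  obtain ⟨n, hn⟩ := IsDiscreteValuationRing.associated_pow_irreducible hz0 hϖ
  have h1 : (⟨y, hy'⟩ : v) ∈ IsLocalRing.maximalIdeal v := by
    rw [ValuationSubring.valuation_lt_one_iff]
    exact hy
  rw [hϖ.maximalIdeal_eq, Ideal.mem_span_singleton] at h1
  have h2 : (⟨z⁻¹, h⟩ : v) ∣ (⟨y, hy'⟩ : v) ^ n := hn.dvd.trans (pow_dvd_pow_of_dvd h1 n)
  obtain ⟨c, hc⟩ := h2
  refine ⟨n, ?_⟩
  have h3 : y ^ n = z⁻¹ * c := congrArg Subtype.val hc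
  rw [h3, ← mul_assoc, mul_inv_cancel₀ hz, one_mul]
  exact c.2

theorem exh_aux [Finite k] (t : K) (ht : Transcendental k t)
    (hfin : FiniteDimensional (IntermediateField.adjoin k {t}) K) (z : K) :
    ∃ N : ℕ, z * t⁻¹ ^ N ∈ infRing (poles t) := by
  have h1 : ∀ v ∈ poles t, ∀ᶠ N : ℕ in Filter.atTop, z * t⁻¹ ^ N ∈ v := by
    intro v hv
    have hne : v ≠ ⊤ := by
      rintro rfl
      exact hv (ValuationSubring.mem_top t)
    have := (isDVR_of_ne_top t ht hfin v hne).1
    obtain ⟨N, hN⟩ := exists_pow_mem_of_isDVR v t⁻¹ (val_lt_one_of_mem_poles hv) z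
    rw [Filter.eventually_atTop]
    refine ⟨N, fun M hM => ?_⟩
    have h2 : z * t⁻¹ ^ M = (z * t⁻¹ ^ N) * t⁻¹ ^ (M - N) := by
      rw [mul_assoc, ← pow_add, Nat.add_sub_cancel' hM]
    rw [h2]
    have h3 : t⁻¹ ∈ v :=
      (ValuationSubring.valuation_le_one_iff _ _).1 (val_lt_one_of_mem_poles hv).le
    exact v.mul_mem _ _ hN (pow_mem h3 _)
  have h2 := ((poles_finite t ht hfin).1.eventually_all (l := Filter.atTop)
    (p := fun v N => z * t⁻¹ ^ N ∈ v)).2 h1
  obtain ⟨N, hN⟩ := h2.exists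
  exact ⟨N, mem_infRing_iff.2 hN⟩

end Pool.Agent.Helper70
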