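import Pool.Agent.Helper70.FFDed

set_option autoImplicit false

namespace Pool.Agent.Helper70

open Pool.Agent.Helper7
open Polynomial
open scoped IntermediateField.algebraAdjoinAdjoin

variable {k K : Type*} [Field k] [Field K] [Algebra k K]

/-- `k[X] ≃ k[t]`. -/
noncomputable def polyEquiv (t : K) (ht : Transcendental k t) : k[X] ≃ₐ[k] Algebra.adjoin k {t} :=
  (AlgEquiv.ofInjective (aeval t) (transcendental_iff_injective.1 ht)).trans
    (Subalgebra.equivOfEq _ _ (Algebra.adjoin_singleton_eq_range_aeval k t).symm)

theorem coe_polyEquiv (t : K) (ht : Transcendental k t) (p : k[X]) :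
    (polyEquiv t ht p : K) = aeval t p := rfl

theorem isPID_adjoin (t : K) (ht : Transcendental k t) :
    IsPrincipalIdealRing (Algebra.adjoin k {t}) :=
  IsPrincipalIdealRing.of_surjective (polyEquiv t ht).toRingEquiv.toRingHom
    (polyEquiv t ht).surjective

theorem hasFiniteQuotients_polynomial (k : Type*) [Field k] [Finite k] :
    Ring.HasFiniteQuotients k[X] where
  finiteQuotient {I} hI := by
    obtain ⟨f, rfl⟩ := Submodule.IsPrincipal.principal I
    have hf : f ≠ 0 := by
      rintro rfl
      simp at hI
    have : Module.Finite k (AdjoinRoot f) := (AdjoinRoot.powerBasis hf).finite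
    have : Finite (AdjoinRoot f) := Module.finite_of_finite k
    exact this

theorem hasFiniteQuotients_of_ringEquiv {R S : Type*} [CommRing R] [CommRing S]
    [h : Ring.HasFiniteQuotients R] (e : R ≃+* S) : Ring.HasFiniteQuotients S where
  finiteQuotient {I} hI := by
    have h1 : I.comap e.toRingHom ≠ ⊥ := by
      intro h0
      apply hI
      rw [eq_bot_iff]
      intro y hy
      obtain ⟨x, rfl⟩ := e.surjective y
      have : x ∈ I.comap e.toRingHom := hy
      rw [h0, Ideal.mem_bot] at this
      rw [this, map_zero]
      exact Ideal.zero_mem _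
    have := h.finiteQuotient h1
    exact Finite.of_surjective (Ideal.quotientMap I e.toRingHom le_rfl)
      (Ideal.quotientMap_surjective e.surjective)

theorem dedekind_affRing [Finite k] (t : K) (ht : Transcendental k t)
    [FiniteDimensional (IntermediateField.adjoin k {t}) K]
    [Algebra.IsSeparable (IntermediateField.adjoin k {t}) K] :
    IsDedekindDomain (affRing (poles t)) ∧ IsFractionRing (affRing (poles t)) K ∧
      Ring.HasFiniteQuotients (affRing (poles t)) := by
  have := isPID_adjoin t ht
  have := hasFiniteQuotients_polynomial k
  have := hasFiniteQuotients_of_ringEquiv (polyEquiv t ht).toRingEquiv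
  rw [affRing_poles (k := k)]
  refine ⟨?_, ?_, ?_⟩
  · exact integralClosure.isDedekindDomain (Algebra.adjoin k {t})
      (IntermediateField.adjoin k {t}) K
  · exact IsIntegralClosure.isFractionRing_of_finite_extension (Algebra.adjoin k {t})
      (IntermediateField.adjoin k {t}) K (integralClosure (Algebra.adjoin k {t}) K)
  · have : Module.Finite (Algebra.adjoin k {t}) (integralClosure (Algebra.adjoin k {t}) K) :=
      IsIntegralClosure.finite (Algebra.adjoin k {t}) (IntermediateField.adjoin k {t}) K _
    exact Ring.HasFiniteQuotients.of_module_finite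
      (R := Algebra.adjoin k {t}) (integralClosure (Algebra.adjoin k {t}) K)

end Pool.Agent.Helper70
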