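import Pool.Agent.Helper70.FFPlaces

set_option autoImplicit false

namespace Pool.Agent.Helper70

open Pool.Agent.Helper7
open Polynomial
open scoped IntermediateField.algebraAdjoinAdjoin

variable {k K : Type*} [Field k] [Field K] [Algebra k K]

theorem isTB (t : K) (ht : Transcendental k t)
    (hfin : FiniteDimensional (IntermediateField.adjoin k {t}) K) :
    IsTranscendenceBasis k (fun _ : Unit => t) := by
  rw [isTranscendenceBasis_iff_algebraicIndependent_isAlgebraic]
  refine ⟨algebraicIndependent_unique_type_iff.2 ht, ?_⟩
  rw [Set.range_const]
  exact Algebra.IsAlgebraic.trans (Algebra.adjoin k {t}) (IntermediateField.adjoin k {t}) K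

theorem essFiniteType (t : K)
    (hfin : FiniteDimensional (IntermediateField.adjoin k {t}) K) :
    Algebra.EssFiniteType k K := by
  have : Algebra.EssFiniteType k (IntermediateField.adjoin k {t}) :=
    IntermediateField.essFiniteType_iff.2 (IntermediateField.fg_adjoin_of_finite (Set.finite_singleton t))
  exact Algebra.EssFiniteType.comp k (IntermediateField.adjoin k {t}) K

theorem finite_of_transcendental (t : K) (ht : Transcendental k t)
    (hfin : FiniteDimensional (IntermediateField.adjoin k {t}) K)
    (x : K) (hx : Transcendental k x) : FiniteDimensional (IntermediateField.adjoin k {x}) K := by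
  have h1 := isTB t ht hfin
  have h2 : AlgebraicIndependent k (fun _ : Unit => x) := algebraicIndependent_unique_type_iff.2 hx
  have h3 : IsTranscendenceBasis k (fun _ : Unit => x) := by
    refine h2.isTranscendenceBasis_of_lift_trdeg_le_of_finite ?_
    rw [← h1.lift_cardinalMk_eq_trdeg]
  have h4 := h3.isAlgebraic_field
  rw [Set.range_const] at h4
  have := essFiniteType t hfin
  have : Algebra.EssFiniteType (IntermediateField.adjoin k {x}) K :=
    Algebra.EssFiniteType.of_comp k (IntermediateField.adjoin k {x}) K
  exact Algebra.finite_of_essFiniteType_of_isAlgebraic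

theorem exists_separating [PerfectField k] (t : K) (ht : Transcendental k t)
    (hfin : FiniteDimensional (IntermediateField.adjoin k {t}) K) :
    ∃ x : K, Transcendental k x ∧ FiniteDimensional (IntermediateField.adjoin k {x}) K ∧
      Algebra.IsSeparable (IntermediateField.adjoin k {x}) K := by
  have := essFiniteType t hfin
  obtain ⟨s, hs, hsep⟩ := exists_isTranscendenceBasis_and_isSeparable_of_perfectField k K
  have h1 := isTB t ht hfin
  have h2 := h1.lift_cardinalMk_eq hs
  have h3 : s.card = 1 := by
    have h5 := congrArg Cardinal.toNat h2
    simpa using h5.symm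
  obtain ⟨x, rfl⟩ := Finset.card_eq_one.1 h3
  have hx : Transcendental k x := by
    have := hs.1
    have h4 := (algebraicIndependent_singleton_iff (ι := ({x} : Finset K))
      ⟨x, Finset.mem_singleton_self x⟩).1 this
    exact h4
  refine ⟨x, hx, finite_of_transcendental t ht hfin x hx, ?_⟩
  rwa [Finset.coe_singleton] at hsep

end Pool.Agent.Helper70
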