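import Pool.Agent.Helper70.FFInf

set_option autoImplicit false

namespace Pool.Agent.Helper70

open Pool.Agent.Helper7
open Polynomial
open scoped IntermediateField.algebraAdjoinAdjoin

variable {k K : Type*} [Field k] [Field K] [Algebra k K]

theorem mem_of_isIntegral' (v : ValuationSubring K) {R : Type*} [CommRing R] [Algebra R K]
    (h : ∀ r : R, algebraMap R K r ∈ v) (z : K) (hz : IsIntegral R z) : z ∈ v := by
  have : IsIntegrallyClosedIn v.toSubring K := inferInstanceAs (IsIntegrallyClosedIn v K)
  obtain ⟨p, hp, hpz⟩ := hz
  have h2 : IsIntegral v.toSubring z := by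
    refine ⟨p.map ((algebraMap R K).codRestrict v.toSubring h), hp.map _, ?_⟩
    rw [Polynomial.eval₂_map]
    exact hpz
  obtain ⟨y, hy⟩ := (isIntegrallyClosedIn_iff.1 this).2 h2
  rw [← hy]
  exact y.2

/-- The part of `infRing` in `k(t)`. -/
def infF (k : Type*) {K : Type*} [Field k] [Field K] [Algebra k K] (t : K) :
    Subring (IntermediateField.adjoin k {t}) :=
  (infRing (poles t)).comap (algebraMap (IntermediateField.adjoin k {t}) K)

instance infF_isScalarTower (t : K) :
    IsScalarTower (infF k t) (IntermediateField.adjoin k {t}) K :=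
  IsScalarTower.of_algebraMap_eq (fun _ => rfl)

theorem isIntegral_infF [Finite k] (t : K) (ht : Transcendental k t)
    [hfin : FiniteDimensional (IntermediateField.adjoin k {t}) K] (z : K)
    (hz : z ∈ infRing (poles t)) : IsIntegral (infF k t) z := by
  have h1 : IsIntegrallyClosedIn (integralClosure (infF k t) K).toSubring K :=
    inferInstanceAs (IsIntegrallyClosedIn (integralClosure (infF k t) K) K)
  change z ∈ (integralClosure (infF k t) K).toSubring
  rw [Subring.eq_iInf_of_isIntegrallyClosedIn (R := (integralClosure (infF k t) K).toSubring)]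
  rw [Subring.mem_iInf]
  rintro ⟨v, hv⟩
  change z ∈ v
  by_cases hvt : v ∈ poles t
  · exact (mem_infRing_iff.1 hz) v hvt
  have htv : t ∈ v := by
    by_contra h
    exact hvt h
  have h2 : ∀ f : IntermediateField.adjoin k {t},
      algebraMap (IntermediateField.adjoin k {t}) K f ∈ v := by
    intro f
    obtain ⟨N, hN⟩ := exh_aux t ht hfin (algebraMap (IntermediateField.adjoin k {t}) K f)
    let g : IntermediateField.adjoin k {t} := f * (IntermediateField.AdjoinSimple.gen k t)⁻¹ ^ N
    have hg : algebraMap (IntermediateField.adjoin k {t}) K g =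
        algebraMap (IntermediateField.adjoin k {t}) K f * t⁻¹ ^ N := by
      simp only [g, map_mul, map_pow, map_inv₀, IntermediateField.AdjoinSimple.algebraMap_gen]
    have h3 : g ∈ infF k t := by
      change algebraMap (IntermediateField.adjoin k {t}) K g ∈ infRing (poles t)
      rw [hg]
      exact hN
    have h4 : algebraMap (IntermediateField.adjoin k {t}) K g ∈ v := by
      apply hv
      exact isIntegral_algebraMap (R := infF k t) (A := K) (x := ⟨g, h3⟩)
    have ht0 : t ≠ 0 := by
      rintro rfl
      exact ht isAlgebraic_zero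
    have h5 : algebraMap (IntermediateField.adjoin k {t}) K f =
        algebraMap (IntermediateField.adjoin k {t}) K g * t ^ N := by
      rw [hg, mul_assoc, ← mul_pow, inv_mul_cancel₀ ht0, one_pow, mul_one]
    rw [h5]
    exact v.mul_mem _ _ h4 (pow_mem htv _)
  exact mem_of_isIntegral' v h2 z (Algebra.IsIntegral.isIntegral z)

theorem trace_mem_infRing [Finite k] (t : K) (ht : Transcendental k t)
    [hfin : FiniteDimensional (IntermediateField.adjoin k {t}) K] (z : K)
    (hz : z ∈ infRing (poles t)) :
    algebraMap (IntermediateField.adjoin k {t}) K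
      (Algebra.trace (IntermediateField.adjoin k {t}) K z) ∈ infRing (poles t) := by
  have h1 := isIntegral_infF t ht z hz
  have h2 : IsIntegral (infF k t) (Algebra.trace (IntermediateField.adjoin k {t}) K z) :=
    Algebra.isIntegral_trace h1
  rw [mem_infRing_iff]
  intro v hv
  refine mem_of_isIntegral' v (R := infF k t) ?_ _ (h2.algebraMap (B := K))
  intro r
  exact mem_infRing_iff.1 r.2 v hv

theorem trace_mem_adjoin (t : K) (ht : Transcendental k t)
    [hfin : FiniteDimensional (IntermediateField.adjoin k {t}) K] (z : K)
    (hz : IsIntegral (Algebra.adjoin k {t}) z) :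
    ∃ P : k[X], algebraMap (IntermediateField.adjoin k {t}) K
      (Algebra.trace (IntermediateField.adjoin k {t}) K z) = aeval t P := by
  have := isPID_adjoin t ht
  have h2 : IsIntegral (Algebra.adjoin k {t}) (Algebra.trace (IntermediateField.adjoin k {t}) K z) :=
    Algebra.isIntegral_trace hz
  obtain ⟨y, hy⟩ := IsIntegrallyClosed.isIntegral_iff.1 h2
  obtain ⟨P, hP⟩ := (polyEquiv t ht).surjective y
  refine ⟨P, ?_⟩
  rw [← hy, ← hP]
  rfl

end Pool.Agent.Helper70
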