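import Pool.Agent.Helper70.Reach

set_option autoImplicit false

namespace Pool.Agent.Helper70

/-- Transition function of the seven-state counterexample game.  Actions: `false` = stay, `true` = exit
in state 1; `false` = return, `true` = quit in state 2. -/
noncomputable def gameD : Fin 7 → Bool → Bool → Fin 7 → ℝ
  | 0, _, _ => ![0, 1/2, 1/2, 0, 0, 0, 0]
  | 1, false, false => ![0, 1, 0, 0, 0, 0, 0]
  | 1, true, false => ![0, 0, 1, 0, 0, 0, 0]
  | 1, _, true => ![0, 0, 0, 1/2, 1/2, 0, 0]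
  | 2, false, _ => ![0, 1/2, 0, 0, 0, 1/2, 0]
  | 2, true, _ => ![0, 0, 0, 0, 1/4, 0, 3/4]
  | 3, _, _ => ![0, 0, 0, 1, 0, 0, 0]
  | 4, _, _ => ![0, 0, 0, 0, 1, 0, 0]
  | 5, _, _ => ![0, 0, 0, 0, 0, 1, 0]
  | 6, _, _ => ![0, 0, 0, 0, 0, 0, 1]

/-- Expected value of `x` at the next state. -/
noncomputable def gameE (x : Fin 7 → ℝ) : Fin 7 → Bool → Bool → ℝ
  | 0, _, _ => x 1 / 2 + x 2 / 2
  | 1, false, false => x 1
  | 1, true, false => x 2
  | 1, _, true => x 3 / 2 + x 4 / 2
  | 2, false, _ => x 1 / 2 + x 5 / 2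
  | 2, true, _ => x 4 / 4 + 3 * x 6 / 4
  | 3, _, _ => x 3
  | 4, _, _ => x 4
  | 5, _, _ => x 5
  | 6, _, _ => x 6

theorem gameD_exp (x : Fin 7 → ℝ) (s : Fin 7) (a b : Bool) :
    ∑ t, gameD s a b t * x t = gameE x s a b := by
  rw [Fin.sum_univ_seven]
  fin_cases s <;> cases a <;> cases b <;> simp [gameD, gameE] <;> ring

theorem vec_nonneg (a b c d e f g : ℝ) (ha : 0 ≤ a) (hb : 0 ≤ b) (hc : 0 ≤ c) (hd : 0 ≤ d)
    (he : 0 ≤ e) (hf : 0 ≤ f) (hg : 0 ≤ g) (t : Fin 7) : 0 ≤ (![a, b, c, d, e, f, g] : Fin 7 → ℝ) t := by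
  fin_cases t <;> assumption

theorem gameD_nonneg (s : Fin 7) (a b : Bool) (t : Fin 7) : 0 ≤ gameD s a b t := by
  fin_cases s <;> cases a <;> cases b <;>
    exact vec_nonneg _ _ _ _ _ _ _ (by norm_num) (by norm_num) (by norm_num) (by norm_num)
      (by norm_num) (by norm_num) (by norm_num) t

theorem gameD_sum (s : Fin 7) (a b : Bool) : ∑ t, gameD s a b t = 1 := by
  have h := gameD_exp 1 s a b
  simp only [Pi.one_apply, mul_one] at h
  rw [h]
  fin_cases s <;> cases a <;> cases b <;> simp [gameE] <;> norm_num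

/-- The induced Markov chain. -/
noncomputable def chain (σ τ : Fin 7 → Bool → ℝ) (s t : Fin 7) : ℝ :=
  ∑ a, ∑ b, σ s a * τ s b * gameD s a b t

section
variable {σ τ : Fin 7 → Bool → ℝ}

theorem chain_exp (x : Fin 7 → ℝ) (s : Fin 7) :
    ∑ t, chain σ τ s t * x t = ∑ a, ∑ b, σ s a * τ s b * gameE x s a b := by
  unfold chain
  simp only [Finset.sum_mul]
  rw [Finset.sum_comm]
  refine Finset.sum_congr rfl fun a _ => ?_
  rw [Finset.sum_comm]
  refine Finset.sum_congr rfl fun b _ => ?_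
  rw [← gameD_exp, Finset.mul_sum]
  exact Finset.sum_congr rfl fun t _ => by ring

theorem chain_nonneg (hσ : ∀ s a, 0 ≤ σ s a) (hτ : ∀ s b, 0 ≤ τ s b) (s t : Fin 7) :
    0 ≤ chain σ τ s t :=
  Finset.sum_nonneg fun a _ => Finset.sum_nonneg fun b _ =>
    mul_nonneg (mul_nonneg (hσ s a) (hτ s b)) (gameD_nonneg s a b t)

theorem chain_sum (hσ : ∀ s, ∑ a, σ s a = 1) (hτ : ∀ s, ∑ b, τ s b = 1) (s : Fin 7) :
    ∑ t, chain σ τ s t = 1 := by
  unfold chain
  rw [Finset.sum_comm]
  have : ∀ a, ∑ t, ∑ b, σ s a * τ s b * gameD s a b t = σ s a := by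
    intro a
    rw [Finset.sum_comm]
    simp only [← Finset.mul_sum, gameD_sum, mul_one, hτ]
  simp only [this, hσ]

theorem chain_abs (s : Fin 7) (hs : s = 3 ∨ s = 4 ∨ s = 5 ∨ s = 6) (t : Fin 7) (ht : t ≠ s) :
    chain σ τ s t = 0 := by
  unfold chain
  refine Finset.sum_eq_zero fun a _ => Finset.sum_eq_zero fun b _ => ?_
  have : gameD s a b t = 0 := by
    rcases hs with rfl | rfl | rfl | rfl <;> fin_cases t <;> first | rfl | exact absurd rfl ht
  rw [this, mul_zero]

theorem chain_one (h1 : σ 1 true = 0) (h2 : τ 1 true = 0) (t : Fin 7) (ht : t ≠ 1) :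
    chain σ τ 1 t = 0 := by
  unfold chain
  simp only [Fintype.sum_bool, h1, h2, zero_mul, mul_zero, zero_add]
  have : gameD 1 false false t = 0 := by
    fin_cases t <;> first | rfl | exact absurd rfl ht
  rw [this, mul_zero]

/-- Target set of player 1. -/
def tgt : Set (Fin 7) := {3, 4}

/-- Unsafe set of player 2. -/
def uns : Set (Fin 7) := {4, 6}

/-- The equations for player 1's reachability probabilities. -/
theorem tgt_eqs (hσ : ∀ s a, 0 ≤ σ s a) (hσ1 : ∀ s, ∑ a, σ s a = 1)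
    (hτ : ∀ s b, 0 ≤ τ s b) (hτ1 : ∀ s, ∑ b, τ s b = 1) :
    valR (chain σ τ) tgt 0 = valR (chain σ τ) tgt 1 / 2 + valR (chain σ τ) tgt 2 / 2 ∧
    valR (chain σ τ) tgt 1 = τ 1 true + (1 - τ 1 true) *
      (σ 1 true * valR (chain σ τ) tgt 2 + (1 - σ 1 true) * valR (chain σ τ) tgt 1) ∧
    valR (chain σ τ) tgt 2 = (1 - σ 2 true) * (valR (chain σ τ) tgt 1 / 2) + σ 2 true / 4 ∧
    (τ 1 true = 0 → σ 1 true = 0 → valR (chain σ τ) tgt 1 = 0) := by
  have hP := chain_nonneg hσ hτ
  have hP1 := chain_sum hσ1 hτ1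
  have e3 : valR (chain σ τ) tgt 3 = 1 := valR_mem hP hP1 (by simp [tgt])
  have e4 : valR (chain σ τ) tgt 4 = 1 := valR_mem hP hP1 (by simp [tgt])
  have e5 : valR (chain σ τ) tgt 5 = 0 := by
    refine valR_closed hP hP1 (C := {5}) ?_ ?_ (by simp)
    · rintro s hs t ht
      rw [Set.mem_singleton_iff] at hs ht
      subst hs
      exact chain_abs _ (by simp) t ht
    · intro s hs
      rw [Set.mem_singleton_iff] at hs
      subst hs
      simp [tgt]
  have e6 : valR (chain σ τ) tgt 6 = 0 := by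
    refine valR_closed hP hP1 (C := {6}) ?_ ?_ (by simp)
    · rintro s hs t ht
      rw [Set.mem_singleton_iff] at hs ht
      subst hs
      exact chain_abs _ (by simp) t ht
    · intro s hs
      rw [Set.mem_singleton_iff] at hs
      subst hs
      simp [tgt]
  have e0 := valR_not_mem (P := chain σ τ) (T := tgt) hP hP1 (s := 0) (by simp [tgt])
  have e1 := valR_not_mem (P := chain σ τ) (T := tgt) hP hP1 (s := 1) (by simp [tgt])
  have e2 := valR_not_mem (P := chain σ τ) (T := tgt) hP hP1 (s := 2) (by simp [tgt])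
  have s0 := hσ1 0
  have s1 := hσ1 1
  have s2 := hσ1 2
  have t0 := hτ1 0
  have t1 := hτ1 1
  have t2 := hτ1 2
  rw [Fintype.sum_bool] at s0 s1 s2 t0 t1 t2
  rw [chain_exp] at e0 e1 e2
  simp only [Fintype.sum_bool, gameE, e3, e4, e5, e6] at e0 e1 e2
  have a0 : σ 0 false = 1 - σ 0 true := by linarith
  have a1 : σ 1 false = 1 - σ 1 true := by linarith
  have a2 : σ 2 false = 1 - σ 2 true := by linarith
  have b0 : τ 0 false = 1 - τ 0 true := by linarith
  have b1 : τ 1 false = 1 - τ 1 true := by linarith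
  have b2 : τ 2 false = 1 - τ 2 true := by linarith
  rw [a0, b0] at e0
  rw [a1, b1] at e1
  rw [a2, b2] at e2
  refine ⟨?_, ?_, ?_, ?_⟩
  · rw [e0]; ring
  · refine e1.trans ?_; ring
  · rw [e2]; ring
  · intro h1 h2
    refine valR_closed hP hP1 (C := {1}) ?_ ?_ (by simp)
    · rintro s hs t ht
      rw [Set.mem_singleton_iff] at hs ht
      subst hs
      exact chain_one h2 h1 t ht
    · intro s hs
      rw [Set.mem_singleton_iff] at hs
      subst hs
      simp [tgt]

/-- The equations for the probabilities of reaching player 2's unsafe set. -/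
theorem uns_eqs (hσ : ∀ s a, 0 ≤ σ s a) (hσ1 : ∀ s, ∑ a, σ s a = 1)
    (hτ : ∀ s b, 0 ≤ τ s b) (hτ1 : ∀ s, ∑ b, τ s b = 1) :
    valR (chain σ τ) uns 0 = valR (chain σ τ) uns 1 / 2 + valR (chain σ τ) uns 2 / 2 ∧
    valR (chain σ τ) uns 1 = τ 1 true / 2 + (1 - τ 1 true) *
      (σ 1 true * valR (chain σ τ) uns 2 + (1 - σ 1 true) * valR (chain σ τ) uns 1) ∧
    valR (chain σ τ) uns 2 = (1 - σ 2 true) * (valR (chain σ τ) uns 1 / 2) + σ 2 true ∧
    (τ 1 true = 0 → σ 1 true = 0 → valR (chain σ τ) uns 1 = 0) := by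
  have hP := chain_nonneg hσ hτ
  have hP1 := chain_sum hσ1 hτ1
  have e6 : valR (chain σ τ) uns 6 = 1 := valR_mem hP hP1 (by simp [uns])
  have e4 : valR (chain σ τ) uns 4 = 1 := valR_mem hP hP1 (by simp [uns])
  have e5 : valR (chain σ τ) uns 5 = 0 := by
    refine valR_closed hP hP1 (C := {5}) ?_ ?_ (by simp)
    · rintro s hs t ht
      rw [Set.mem_singleton_iff] at hs ht
      subst hs
      exact chain_abs _ (by simp) t ht
    · intro s hs
      rw [Set.mem_singleton_iff] at hs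
      subst hs
      simp [uns]
  have e3 : valR (chain σ τ) uns 3 = 0 := by
    refine valR_closed hP hP1 (C := {3}) ?_ ?_ (by simp)
    · rintro s hs t ht
      rw [Set.mem_singleton_iff] at hs ht
      subst hs
      exact chain_abs _ (by simp) t ht
    · intro s hs
      rw [Set.mem_singleton_iff] at hs
      subst hs
      simp [uns]
  have e0 := valR_not_mem (P := chain σ τ) (T := uns) hP hP1 (s := 0) (by simp [uns])
  have e1 := valR_not_mem (P := chain σ τ) (T := uns) hP hP1 (s := 1) (by simp [uns])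
  have e2 := valR_not_mem (P := chain σ τ) (T := uns) hP hP1 (s := 2) (by simp [uns])
  have s0 := hσ1 0
  have s1 := hσ1 1
  have s2 := hσ1 2
  have t0 := hτ1 0
  have t1 := hτ1 1
  have t2 := hτ1 2
  rw [Fintype.sum_bool] at s0 s1 s2 t0 t1 t2
  rw [chain_exp] at e0 e1 e2
  simp only [Fintype.sum_bool, gameE, e3, e4, e5, e6] at e0 e1 e2
  have a0 : σ 0 false = 1 - σ 0 true := by linarith
  have a1 : σ 1 false = 1 - σ 1 true := by linarith
  have a2 : σ 2 false = 1 - σ 2 true := by linarith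
  have b0 : τ 0 false = 1 - τ 0 true := by linarith
  have b1 : τ 1 false = 1 - τ 1 true := by linarith
  have b2 : τ 2 false = 1 - τ 2 true := by linarith
  rw [a0, b0] at e0
  rw [a1, b1] at e1
  rw [a2, b2] at e2
  refine ⟨?_, ?_, ?_, ?_⟩
  · rw [e0]; ring
  · refine e1.trans ?_; ring
  · rw [e2]; ring
  · intro h1 h2
    refine valR_closed hP hP1 (C := {1}) ?_ ?_ (by simp)
    · rintro s hs t ht
      rw [Set.mem_singleton_iff] at hs ht
      subst hs
      exact chain_one h2 h1 t ht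
    · intro s hs
      rw [Set.mem_singleton_iff] at hs
      subst hs
      simp [uns]

end

end Pool.Agent.Helper70
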