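import Pool.Agent.Helper70.Game

set_option autoImplicit false

namespace Pool.Agent.Helper70

/-- The pure stationary strategy playing `true` everywhere. -/
def pT : Fin 7 → Bool → ℝ := fun _ b => if b then 1 else 0

/-- The pure stationary strategy playing `false` everywhere. -/
def pF : Fin 7 → Bool → ℝ := fun _ b => if b then 0 else 1

theorem pT_nonneg (s : Fin 7) (b : Bool) : 0 ≤ pT s b := by cases b <;> simp [pT]
theorem pF_nonneg (s : Fin 7) (b : Bool) : 0 ≤ pF s b := by cases b <;> simp [pF]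
theorem pT_sum (s : Fin 7) : ∑ b, pT s b = 1 := by simp [pT]
theorem pF_sum (s : Fin 7) : ∑ b, pF s b = 1 := by simp [pF]

/-- Arithmetic of the case in which player 2 never exits state 1. -/
theorem arith_zero (F0 F1 F2 G0 G1 G2 E0 E1 E2 x q : ℝ)
    (q1 : q ≤ 1) (q0 : 0 ≤ q) (hx : 0 < x)
    (f0 : F0 = F1 / 2 + F2 / 2) (f1 : F1 = 0 + (1 - 0) * (x * F2 + (1 - x) * F1))
    (f2 : F2 = (1 - q) * (F1 / 2) + q / 4)
    (g0 : G0 = G1 / 2 + G2 / 2) (g1 : G1 = 0 / 2 + (1 - 0) * (x * G2 + (1 - x) * G1))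
    (g2 : G2 = (1 - q) * (G1 / 2) + q)
    (e0 : E0 = E1 / 2 + E2 / 2) (e1 : E1 = 1 / 2 + (1 - 1) * (x * E2 + (1 - x) * E1))
    (e2 : E2 = (1 - q) * (E1 / 2) + q)
    (dev : (1 : ℝ) / 4 ≤ F0 + 1 / 100) (dev2 : G0 ≤ E0 + 1 / 100) : False := by
  have hF : F1 = F2 := by
    have : x * (F1 - F2) = 0 := by linarith
    rcases mul_eq_zero.1 this with h | h
    · exact absurd h hx.ne'
    · linarith
  have hG : G1 = G2 := by
    have : x * (G1 - G2) = 0 := by linarith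
    rcases mul_eq_zero.1 this with h | h
    · exact absurd h hx.ne'
    · linarith
  subst hF hG
  have hE1 : E1 = 1 / 2 := by rw [e1]; ring
  subst hE1
  have hF1' : (24 : ℝ) / 100 ≤ F1 := by linarith
  have hq : (92 : ℝ) / 100 ≤ q := by nlinarith
  have hG' : (92 : ℝ) / 100 ≤ G1 := by nlinarith
  linarith

/-- Arithmetic of the case in which player 2 exits state 1 with positive probability. -/
theorem arith_pos (F0 F1 F2 G0 G1 G2 E0 E1 E2 x y q : ℝ)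
    (q1 : q ≤ 1) (q0 : 0 ≤ q) (x0 : 0 ≤ x) (y1 : y ≤ 1) (hy : 0 < y)
    (f0 : F0 = F1 / 2 + F2 / 2) (f1 : F1 = y + (1 - y) * (x * F2 + (1 - x) * F1))
    (f2 : F2 = (1 - q) * (F1 / 2) + q / 4) (f1le : F1 ≤ 1)
    (g0 : G0 = G1 / 2 + G2 / 2) (g1 : G1 = y / 2 + (1 - y) * (x * G2 + (1 - x) * G1))
    (g2 : G2 = (1 - q) * (G1 / 2) + q) (g1le : G1 ≤ 1) (g2ge : 0 ≤ G2)
    (e0 : E0 = E1 / 2 + E2 / 2) (e2 : E2 = (1 - q) * (E1 / 2) + q) (hE : E1 ≤ E2)
    (E2ge : 0 ≤ E2)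
    (dev : (3 : ℝ) / 4 ≤ F0 + 1 / 100) (dev2 : G0 ≤ E0 + 1 / 100) : False := by
  have h1 : (1 - q) * F1 ≤ (1 - q) * 1 := mul_le_mul_of_nonneg_left f1le (by linarith)
  have hF2q : F2 ≤ 1 / 2 - q / 4 := by linarith
  have hq : q ≤ 8 / 100 := by linarith
  have hF1' : 98 / 100 ≤ F1 := by linarith
  have hF2' : F2 ≤ 1 / 2 := by linarith
  obtain ⟨k, hk⟩ : ∃ k, k = (1 - y) * x := ⟨_, rfl⟩
  have hk0 : 0 ≤ k := hk ▸ mul_nonneg (by linarith) x0
  have hpos : 0 < y + k := by linarith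
  have f1' : (y + k) * F1 = y + k * F2 := by rw [hk]; linarith
  have g1' : (y + k) * G1 = y / 2 + k * G2 := by rw [hk]; linarith
  have hk4 : k ≤ 4 / 100 * (y + k) := by
    have a1 : (y + k) * (98 / 100) ≤ (y + k) * F1 := mul_le_mul_of_nonneg_left hF1' hpos.le
    have a2 : k * F2 ≤ k * (1 / 2) := mul_le_mul_of_nonneg_left hF2' hk0
    linarith
  have hG1' : (48 : ℝ) / 100 ≤ G1 := by
    have h3 : (y + k) * (48 / 100) ≤ (y + k) * G1 := by
      rw [g1']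
      have : 0 ≤ k * G2 := mul_nonneg hk0 g2ge
      linarith
    exact le_of_mul_le_mul_left h3 hpos
  have hG2' : (24 : ℝ) / 100 ≤ G2 := by
    have : 0 ≤ q * (1 - G1 / 2) := mul_nonneg q0 (by linarith)
    linarith
  have hE2 : E2 ≤ 16 / 100 := by
    have a1 : (1 - q) * E1 ≤ (1 - q) * E2 := mul_le_mul_of_nonneg_left hE (by linarith)
    have a2 : 0 ≤ q * E2 := mul_nonneg q0 E2ge
    linarith
  linarith

/-- In the seven-state game no pair of stationary strategies is a `1/100`-equilibrium from state 0. -/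
theorem no_eq (σ τ : Fin 7 → Bool → ℝ)
    (hσ : ∀ s a, 0 ≤ σ s a) (hσ1 : ∀ s, ∑ a, σ s a = 1)
    (hτ : ∀ s b, 0 ≤ τ s b) (hτ1 : ∀ s, ∑ b, τ s b = 1)
    (h1 : ∀ σ' : Fin 7 → Bool → ℝ, (∀ s a, 0 ≤ σ' s a) → (∀ s, ∑ a, σ' s a = 1) →
      valR (chain σ' τ) tgt 0 ≤ valR (chain σ τ) tgt 0 + 1 / 100)
    (h2 : ∀ τ' : Fin 7 → Bool → ℝ, (∀ s b, 0 ≤ τ' s b) → (∀ s, ∑ b, τ' s b = 1) →
      valR (chain σ τ) uns 0 ≤ valR (chain σ τ') uns 0 + 1 / 100) : False := by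
  obtain ⟨f0, f1, f2, f3⟩ := tgt_eqs hσ hσ1 hτ hτ1
  obtain ⟨g0, g1, g2, g3⟩ := uns_eqs hσ hσ1 hτ hτ1
  have cP := chain_nonneg hσ hτ
  have cP1 := chain_sum hσ1 hτ1
  have f1le : valR (chain σ τ) tgt 1 ≤ 1 := valR_le_one cP cP1 1
  have g1le : valR (chain σ τ) uns 1 ≤ 1 := valR_le_one cP cP1 1
  have g2ge : 0 ≤ valR (chain σ τ) uns 2 := valR_nonneg cP cP1 2
  have y0 : 0 ≤ τ 1 true := hτ 1 true
  have x0 : 0 ≤ σ 1 true := hσ 1 true
  have q0 : 0 ≤ σ 2 true := hσ 2 true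
  have y1 : τ 1 true ≤ 1 := by
    have := hτ1 1; rw [Fintype.sum_bool] at this; linarith [hτ 1 false]
  have x1 : σ 1 true ≤ 1 := by
    have := hσ1 1; rw [Fintype.sum_bool] at this; linarith [hσ 1 false]
  have q1 : σ 2 true ≤ 1 := by
    have := hσ1 2; rw [Fintype.sum_bool] at this; linarith [hσ 2 false]
  have hpF : ∀ s, pF s true = 0 := fun _ => rfl
  have hpT : ∀ s, pT s true = 1 := fun _ => rfl
  rcases eq_or_lt_of_le y0 with hy | hy
  · -- player 2 never exits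
    have dev := h1 pT pT_nonneg pT_sum
    obtain ⟨d0, d1, d2, -⟩ := tgt_eqs (σ := pT) (τ := τ) pT_nonneg pT_sum hτ hτ1
    rw [hpT, ← hy] at d1
    rw [hpT] at d2
    have dev' : (1 : ℝ) / 4 ≤ valR (chain σ τ) tgt 0 + 1 / 100 := by
      refine le_trans (le_of_eq ?_) dev
      linarith
    rw [← hy] at f1 g1
    rcases eq_or_lt_of_le x0 with hx | hx
    · have := f3 hy.symm hx.symm
      rw [this] at f2 f0
      linarith
    · have dev2 := h2 pT pT_nonneg pT_sum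
      obtain ⟨e0, e1, e2, -⟩ := uns_eqs (σ := σ) (τ := pT) hσ hσ1 pT_nonneg pT_sum
      rw [hpT] at e1
      exact arith_zero _ _ _ _ _ _ _ _ _ _ _ q1 q0 hx f0 f1 f2 g0 g1 g2 e0 e1 e2 dev' dev2
  · -- player 2 exits with positive probability
    have dev := h1 pF pF_nonneg pF_sum
    obtain ⟨d0, d1, d2, -⟩ := tgt_eqs (σ := pF) (τ := τ) pF_nonneg pF_sum hτ hτ1
    rw [hpF] at d1 d2
    have hd1 : valR (chain pF τ) tgt 1 = 1 := by
      have : τ 1 true * (valR (chain pF τ) tgt 1 - 1) = 0 := by linarith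
      rcases mul_eq_zero.1 this with h | h
      · exact absurd h hy.ne'
      · linarith
    have dev' : (3 : ℝ) / 4 ≤ valR (chain σ τ) tgt 0 + 1 / 100 := by
      refine le_trans (le_of_eq ?_) dev
      rw [d0, d2, hd1]; norm_num
    have dev2 := h2 pF pF_nonneg pF_sum
    obtain ⟨e0, e1, e2, e3⟩ := uns_eqs (σ := σ) (τ := pF) hσ hσ1 pF_nonneg pF_sum
    rw [hpF] at e1 e3
    have E2ge : 0 ≤ valR (chain σ pF) uns 2 :=
      valR_nonneg (chain_nonneg hσ pF_nonneg) (chain_sum hσ1 pF_sum) 2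
    have hE : valR (chain σ pF) uns 1 ≤ valR (chain σ pF) uns 2 := by
      rcases eq_or_lt_of_le x0 with hx | hx
      · rw [e3 rfl hx.symm]
        exact E2ge
      · have : σ 1 true * (valR (chain σ pF) uns 1 - valR (chain σ pF) uns 2) = 0 := by linarith
        rcases mul_eq_zero.1 this with h | h
        · exact absurd h hx.ne'
        · linarith
    exact arith_pos _ _ _ _ _ _ _ _ _ _ _ _ q1 q0 x0 y1 hy f0 f1 f2 f1le g0 g1 g2 g1le g2ge
      e0 e2 hE E2ge dev' dev2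

end Pool.Agent.Helper70
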