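import Mathlib

set_option autoImplicit false

namespace Pool.Agent.Helper70

open Filter Topology

/-- One step of value iteration for reaching `T` in the Markov chain `P`. -/
noncomputable def stepR {S : Type} [Fintype S] (P : S → S → ℝ) (T : Set S) (x : S → ℝ) : S → ℝ :=
  T.indicator (fun _ => (1 : ℝ)) + Tᶜ.indicator (fun s => ∑ t, P s t * x t)

/-- The reachability value. -/
noncomputable def valR {S : Type} [Fintype S] (P : S → S → ℝ) (T : Set S) (s : S) : ℝ :=
  ⨆ n : ℕ, (stepR P T)^[n] 0 s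

section
variable {S : Type} [Fintype S] {P : S → S → ℝ} {T : Set S}

theorem stepR_mem {x : S → ℝ} {s : S} (hs : s ∈ T) : stepR P T x s = 1 := by
  simp [stepR, hs]

theorem stepR_not_mem {x : S → ℝ} {s : S} (hs : s ∉ T) :
    stepR P T x s = ∑ t, P s t * x t := by
  simp [stepR, hs]

theorem stepR_mono (hP : ∀ s t, 0 ≤ P s t) : Monotone (stepR P T) := by
  intro x y hxy s
  by_cases hs : s ∈ T
  · simp [stepR_mem hs]
  · simp only [stepR_not_mem hs]
    exact Finset.sum_le_sum fun t _ => mul_le_mul_of_nonneg_left (hxy t) (hP s t)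

theorem stepR_zero_nonneg (s : S) : 0 ≤ stepR P T 0 s := by
  by_cases hs : s ∈ T
  · simp [stepR_mem hs]
  · simp [stepR_not_mem hs]

theorem iter_le (hP : ∀ s t, 0 ≤ P s t) {z : S → ℝ} (hz : 0 ≤ z) (hFz : stepR P T z ≤ z) (n : ℕ) :
    (stepR P T)^[n] 0 ≤ z := by
  induction n with
  | zero => simpa using hz
  | succ n ih =>
    rw [Function.iterate_succ_apply']
    exact (stepR_mono hP ih).trans hFz

theorem iter_mono (hP : ∀ s t, 0 ≤ P s t) : Monotone (fun n : ℕ => (stepR P T)^[n] 0) := by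
  refine monotone_nat_of_le_succ fun n => ?_
  rw [Function.iterate_succ_apply]
  exact (stepR_mono hP).iterate n (fun s => stepR_zero_nonneg s)

theorem stepR_one_le (hP1 : ∀ s, ∑ t, P s t = 1) : stepR P T 1 ≤ 1 := by
  intro s
  by_cases hs : s ∈ T
  · simp [stepR_mem hs]
  · simp [stepR_not_mem hs, hP1]

theorem valR_le (hP : ∀ s t, 0 ≤ P s t) {z : S → ℝ} (hz : 0 ≤ z) (hFz : stepR P T z ≤ z) (s : S) :
    valR P T s ≤ z s :=
  ciSup_le fun n => iter_le hP hz hFz n s

theorem bdd (hP : ∀ s t, 0 ≤ P s t) (hP1 : ∀ s, ∑ t, P s t = 1) (s : S) :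
    BddAbove (Set.range fun n : ℕ => (stepR P T)^[n] 0 s) := by
  refine ⟨1, ?_⟩
  rintro _ ⟨n, rfl⟩
  exact iter_le hP (z := 1) (fun _ => zero_le_one) (stepR_one_le hP1) n s

theorem valR_nonneg (hP : ∀ s t, 0 ≤ P s t) (hP1 : ∀ s, ∑ t, P s t = 1) (s : S) :
    0 ≤ valR P T s := by
  have := le_ciSup (bdd (T := T) hP hP1 s) 0
  exact this

theorem valR_le_one (hP : ∀ s t, 0 ≤ P s t) (hP1 : ∀ s, ∑ t, P s t = 1) (s : S) :
    valR P T s ≤ 1 :=
  valR_le hP (z := 1) (fun _ => zero_le_one) (stepR_one_le hP1) s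

theorem valR_tendsto (hP : ∀ s t, 0 ≤ P s t) (hP1 : ∀ s, ∑ t, P s t = 1) (s : S) :
    Tendsto (fun n : ℕ => (stepR P T)^[n] 0 s) atTop (𝓝 (valR P T s)) := by
  refine tendsto_atTop_ciSup (fun m n h => iter_mono hP h s) (bdd hP hP1 s)

theorem valR_fix (hP : ∀ s t, 0 ≤ P s t) (hP1 : ∀ s, ∑ t, P s t = 1) (s : S) :
    valR P T s = stepR P T (valR P T) s := by
  have h1 : Tendsto (fun n : ℕ => (stepR P T)^[n + 1] 0 s) atTop (𝓝 (valR P T s)) :=
    (tendsto_add_atTop_iff_nat 1).2 (valR_tendsto hP hP1 s)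
  have h2 : Tendsto (fun n : ℕ => (stepR P T)^[n + 1] 0 s) atTop
      (𝓝 (stepR P T (valR P T) s)) := by
    simp only [Function.iterate_succ_apply']
    by_cases hs : s ∈ T
    · simp only [stepR_mem hs]
      exact tendsto_const_nhds
    · simp only [stepR_not_mem hs]
      exact tendsto_finsetSum _ fun t _ => (valR_tendsto hP hP1 t).const_mul _
  exact tendsto_nhds_unique h1 h2

theorem valR_mem (hP : ∀ s t, 0 ≤ P s t) (hP1 : ∀ s, ∑ t, P s t = 1) {s : S} (hs : s ∈ T) :
    valR P T s = 1 := by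
  rw [valR_fix hP hP1, stepR_mem hs]

theorem valR_not_mem (hP : ∀ s t, 0 ≤ P s t) (hP1 : ∀ s, ∑ t, P s t = 1) {s : S} (hs : s ∉ T) :
    valR P T s = ∑ t, P s t * valR P T t := by
  rw [valR_fix hP hP1, stepR_not_mem hs]

/-- The value vanishes on a closed set of states disjoint from the target. -/
theorem valR_closed (hP : ∀ s t, 0 ≤ P s t) (hP1 : ∀ s, ∑ t, P s t = 1) {C : Set S}
    (hC : ∀ s ∈ C, ∀ t ∉ C, P s t = 0) (hCT : ∀ s ∈ C, s ∉ T) {s : S} (hs : s ∈ C) :
    valR P T s = 0 := by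
  classical
  refine le_antisymm ?_ (valR_nonneg hP hP1 s)
  have := valR_le (P := P) (T := T) hP (z := Cᶜ.indicator 1) ?_ ?_ s
  · simpa [hs] using this
  · intro t
    exact Set.indicator_nonneg (fun _ _ => zero_le_one) t
  · intro t
    by_cases ht : t ∈ C
    · rw [stepR_not_mem (hCT t ht)]
      simp only [Set.indicator, Set.mem_compl_iff, ht, not_true_eq_false, if_false]
      refine le_of_eq (Finset.sum_eq_zero fun u _ => ?_)
      by_cases hu : u ∈ C
      · simp [hu]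
      · simp [hC t ht u hu]
    · have h1 : (Cᶜ.indicator (1 : S → ℝ)) t = 1 := by simp [ht]
      rw [h1]
      have h2 : stepR P T (Cᶜ.indicator 1) t ≤ stepR P T 1 t :=
        stepR_mono hP (fun u => by
          by_cases hu : u ∈ C <;> simp [hu]) t
      exact h2.trans (stepR_one_le hP1 t)

end

end Pool.Agent.Helper70
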