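import Pool.Agent.Helper52.AH.Final

/-!
# 3-edge-colourings of subcubic graphs with bipartite core: odd order

Let `G` be connected, bridgeless, with all degrees at most three, and let `b` be a proper 2-colouring
of the graph induced by the vertices of degree three. If some vertex `x` of degree two does not have
two neighbours of degree three with different `b`, then `G` is 3-edge-colourable: either the theorem
`final` applies, or `G - x` has a perfect matching `m`, and then all cycles of `G - m` are even.
-/

set_option autoImplicit false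

namespace Pool.Agent.Helper70.T1

open Finset Pool.Agent.Helper52.AH

universe u

/-- a matching which misses only `x`, as an involution -/
theorem mt_of {V : Type u} {G : SimpleGraph V} {M : G.Subgraph} (hM : M.IsMatching) {x : V}
    (hv : M.verts = {x}ᶜ) : ∃ m : V → V, Mt G m ∧ ∀ v, v ≠ x → m v ≠ v := by
  classical
  have hmem : ∀ v, v ≠ x → v ∈ M.verts := by
    intro v h
    rw [hv]
    exact h
  have hnot : ¬ x ∈ M.verts := by
    rw [hv]
    exact fun h => h rfl
  set m : V → V := fun v => if h : v ∈ M.verts then (hM h).choose else v with hm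
  have h1 : ∀ v, v ∈ M.verts → M.Adj v (m v) := by
    intro v h
    have h2 : m v = (hM h).choose := dif_pos h
    rw [h2]
    exact (hM h).choose_spec.1
  have h3 : ∀ v w, M.Adj v w → m v = w := by
    intro v w h
    have hvm : v ∈ M.verts := M.edge_vert h
    exact (hM hvm).unique (h1 v hvm) h
  refine ⟨m, ⟨?_, ?_⟩, ?_⟩
  · intro v
    by_cases h : v ∈ M.verts
    · exact h3 _ _ (h1 v h).symm
    · have h2 : m v = v := dif_neg h
      rw [h2, h2]
  · intro v h
    by_cases hvm : v ∈ M.verts
    · exact (h1 v hvm).adj_sub
    · exact absurd (dif_neg hvm) h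
  · intro v h e
    have h2 := h1 v (hmem v h)
    rw [e] at h2
    exact M.loopless.irrefl v h2

/-- colouring by two matchings and the rest -/
theorem col_of {V : Type u} [Fintype V] {G : SimpleGraph V} {m q : V → V} (hm : Mt G m)
    (hR2 : ∀ v, dg (del G m hm) v ≤ 2) (hq : Mt (del G m hm) q)
    (hqY : ∀ v, dg (del G m hm) v = 2 → q v ≠ v) : Col3 G := by
  classical
  refine ⟨fun v w => if m v = w then 0 else if q v = w then 1 else 2, ?_, ?_⟩
  · intro v w
    have h1 : m v = w ↔ m w = v := ⟨fun h => by rw [← h, hm.inv], fun h => by rw [← h, hm.inv]⟩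
    have h2 : q v = w ↔ q w = v := ⟨fun h => by rw [← h, hq.inv], fun h => by rw [← h, hq.inv]⟩
    simp only [h1, h2]
  · intro v w w' hw hw' hne heq
    simp only at heq
    by_cases h1 : m v = w
    · by_cases h1' : m v = w'
      · exact hne (h1.symm.trans h1')
      · rw [if_pos h1, if_neg h1'] at heq
        split_ifs at heq <;> exact absurd heq (by decide)
    · by_cases h1' : m v = w'
      · rw [if_neg h1, if_pos h1'] at heq
        split_ifs at heq <;> exact absurd heq (by decide)
      · rw [if_neg h1, if_neg h1'] at heq
        by_cases h2 : q v = w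
        · by_cases h2' : q v = w'
          · exact hne (h2.symm.trans h2')
          · rw [if_pos h2, if_neg h2'] at heq
            exact absurd heq (by decide)
        · by_cases h2' : q v = w'
          · rw [if_neg h2, if_pos h2'] at heq
            exact absurd heq (by decide)
          · have hBw : (del G m hm).Adj v w := ⟨hw, h1⟩
            have hBw' : (del G m hm).Adj v w' := ⟨hw', h1'⟩
            have hsub : ({w, w'} : Finset V) ⊆ nb (del G m hm) v := by
              intro z hz
              rw [mem_insert, mem_singleton] at hz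
              rw [mem_nb]
              rcases hz with rfl | rfl
              · exact hBw
              · exact hBw'
            have hcard : ({w, w'} : Finset V).card = 2 := Finset.card_pair hne
            have heq2 : ({w, w'} : Finset V) = nb (del G m hm) v :=
              Finset.eq_of_subset_of_card_le hsub (by rw [hcard]; exact hR2 v)
            have hvY : dg (del G m hm) v = 2 := by
              rw [dg, ← heq2, hcard]
            have hqv := hqY v hvY
            have hz : q v ∈ ({w, w'} : Finset V) := by
              rw [heq2, mem_nb]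
              exact hq.adj v hqv
            rw [mem_insert, mem_singleton] at hz
            rcases hz with h | h
            · exact h2 h
            · exact h2' h

open Classical in
/-- a perfect matching of `G - x` -/
theorem col_of_near {V : Type u} [Fintype V] {G : SimpleGraph V} (hd : ∀ v, dg G v ≤ 3)
    (b : V → Bool) (hb : ∀ v w, G.Adj v w → dg G v = 3 → dg G w = 3 → b v ≠ b w) {x : V}
    (hx : dg G x ≤ 2) (hxb : ∀ v w, G.Adj x v → G.Adj x w → dg G v = 3 → dg G w = 3 → b v = b w)
    {m : V → V} (hm : Mt G m) (hmx : ∀ v, v ≠ x → m v ≠ v) : Col3 G := by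
  set R := del G m hm with hR
  have hR1 : ∀ v, v ≠ x → dg R v + 1 = dg G v := fun v h => dg_del hm v (hmx v h)
  have hR2 : ∀ v, dg R v ≤ 2 := by
    intro v
    by_cases h : v = x
    · rw [h]
      exact (dg_del_le hm x).trans hx
    · have h1 := hR1 v h
      have h2 := hd v
      omega
  obtain ⟨β, hβ⟩ : ∃ β : Bool, ∀ v, G.Adj x v → dg G v = 3 → b v = β := by
    by_cases h : ∃ v, G.Adj x v ∧ dg G v = 3
    · obtain ⟨v, hv, hv3⟩ := h
      exact ⟨b v, fun w hw hw3 => hxb w v hw hv hw3 hv3⟩
    · push Not at h
      exact ⟨true, fun w hw hw3 => absurd hw3 (h w hw)⟩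
  obtain ⟨q, hq, hqY⟩ := cover R hR2 (univ.filter fun v => dg R v = 2)
    (fun v hv => (mem_filter.1 hv).2) (by
      intro K hK hodd
      by_contra hno
      push Not at hno
      have hcl : ∀ v ∈ K, ∀ w, R.Adj v w → w ∈ K := by
        intro v hv w h
        by_contra hw
        exact hno v hv w hw h
      have hK2 : ∀ v ∈ K, dg R v = 2 := fun v hv => (mem_filter.1 (hK hv)).2
      have hK3 : ∀ v ∈ K, v ≠ x → dg G v = 3 := by
        intro v hv h
        rw [← hR1 v h, hK2 v hv]
      apply Nat.not_even_iff_odd.2 hodd
      apply even_of_bip R (fun v => if v = x then !β else b v) K hcl _ hK2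
      intro v hv w hw h
      by_cases hvx : v = x
      · have hwx : w ≠ x := by
          intro e
          rw [hvx, e] at h
          exact R.loopless.irrefl _ h
        simp only [hvx, if_true, if_neg hwx]
        have h1 : G.Adj x w := by
          rw [← hvx]
          exact h.1
        rw [hβ w h1 (hK3 w hw hwx)]
        cases β <;> decide
      · by_cases hwx : w = x
        · simp only [hwx, if_true, if_neg hvx]
          have h1 : G.Adj x v := by
            rw [← hwx]
            exact h.1.symm
          rw [hβ v h1 (hK3 v hv hvx)]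
          cases β <;> decide
        · simp only [if_neg hvx, if_neg hwx]
          exact hb v w h.1 (hK3 v hv hvx) (hK3 w hw hwx))
  exact col_of hm hR2 hq (fun v hv => hqY v (mem_filter.2 ⟨mem_univ _, hv⟩))

open Classical in
theorem t1 {V : Type u} [Fintype V] (G : SimpleGraph V) [DecidableRel G.Adj]
    (hc : G.Connected) (hd : ∀ v, G.degree v ≤ 3) (hbr : ∀ e, ¬ G.IsBridge e)
    (b : V → Bool) (hb : ∀ v w, G.Adj v w → G.degree v = 3 → G.degree w = 3 → b v ≠ b w)
    (x : V) (hx : G.degree x ≠ 3)
    (hxb : ∀ v w, G.Adj x v → G.Adj x w → G.degree v = 3 → G.degree w = 3 → b v = b w) :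
    ∃ c : Sym2 V → Fin 3, ∀ u v w, G.Adj u v → G.Adj u w → v ≠ w → c s(u, v) ≠ c s(u, w) := by
  by_cases hn : Even (Fintype.card V) ∨ ∃ v, ∀ M : G.Subgraph, M.IsMatching → M.verts ≠ {v}ᶜ
  · exact final G hc hd hbr ⟨b, hb⟩ hn
  push Not at hn
  obtain ⟨M, hM, hMv⟩ := hn.2 x
  obtain ⟨m, hm, hmx⟩ := mt_of hM hMv
  have hcol : Col3 G := by
    apply col_of_near (fun v => by rw [dg_eq]; exact hd v) b _ (x := x) _ _ hm hmx
    · intro v w h h1 h2
      rw [dg_eq] at h1 h2
      exact hb v w h h1 h2
    · rw [dg_eq]
      have := hd x
      omega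
    · intro v w h h' h1 h2
      rw [dg_eq] at h1 h2
      exact hxb v w h h' h1 h2
  obtain ⟨c, hcs, hcp⟩ := hcol
  refine ⟨Sym2.lift ⟨c, hcs⟩, ?_⟩
  intro u v w h1 h2 hne
  exact hcp u v w h1 h2 hne

end Pool.Agent.Helper70.T1
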